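import Pool.Agent.TH167.T3.Nine
import Pool.Agent.TH442.NF.Fin

set_option autoImplicit false

/-!
# Standard classes of negative curves: the numbers at the points after the ninth
-/

namespace Pool.Agent.K6.H96.TM

open MvPolynomial Pool.Agent.W609 Pool.Agent.W609.CR Pool.Agent.TH167 Pool.Agent.TH167.SH
  Pool.Agent.TH167.TT Pool.Agent.TH167.DD Pool.Agent.TH167.T3 Pool.Agent.H932R3

/-- `3 d - (v 0 + ⋯ + v 8)` -/
def xx {n : ℕ} (d : ℕ) (v : Fin n → ℕ) : ℤ :=
  3 * (d : ℤ) - ∑ i : Fin n, if (i : ℕ) < 9 then (v i : ℤ) else 0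

/-- `d ^ 2 - (v 0 ^ 2 + ⋯ + v 8 ^ 2)` -/
def DD {n : ℕ} (d : ℕ) (v : Fin n → ℕ) : ℤ :=
  (d : ℤ) ^ 2 - ∑ i : Fin n, if (i : ℕ) < 9 then (v i : ℤ) ^ 2 else 0

/-- the sum of a function of the multiplicities after the ninth -/
def tl {n : ℕ} (v : Fin n → ℕ) (f : ℕ → ℤ) : ℤ :=
  ∑ i : Fin n, if 9 ≤ (i : ℕ) then f (v i) else 0

theorem sum_tl {n : ℕ} (v : Fin n → ℕ) (f : ℕ → ℤ) :
    ∑ i, f (v i) = (∑ i : Fin n, if (i : ℕ) < 9 then f (v i) else 0) + tl v f := by
  unfold tl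
  rw [← Finset.sum_add_distrib]
  refine Finset.sum_congr rfl fun i _ => ?_
  by_cases h : (i : ℕ) < 9
  · rw [if_pos h, if_neg (by omega), add_zero]
  · rw [if_neg h, if_pos (by omega), zero_add]

theorem hd_range {n : ℕ} (v : Fin n → ℕ) (f : ℕ → ℤ) (hf : f 0 = 0) :
    (∑ i : Fin n, if (i : ℕ) < 9 then f (v i) else 0) = ∑ i ∈ Finset.range 9, f (ex v i) := by
  have h1 : ∀ i : Fin n, (if (i : ℕ) < 9 then f (v i) else 0) =
      (fun k : ℕ => if k < 9 then f (ex v k) else 0) (i : ℕ) := by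
    intro i
    have : ex v i.1 = v i := dif_pos i.2
    show _ = if (i : ℕ) < 9 then f (ex v i) else 0
    rw [this]
  rw [Finset.sum_congr rfl fun i _ => h1 i,
    Fin.sum_univ_eq_sum_range (fun k : ℕ => if k < 9 then f (ex v k) else 0) n]
  have h2 : ∀ m, 9 ≤ m → ∑ i ∈ Finset.range m, (if i < 9 then f (ex v i) else 0) =
      ∑ i ∈ Finset.range 9, f (ex v i) := by
    intro m hm
    rw [← Finset.sum_range_add_sum_Ico _ hm, Finset.sum_eq_zero (s := Finset.Ico 9 m) (fun i hi => by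
      rw [Finset.mem_Ico] at hi
      rw [if_neg (by omega)]), add_zero]
    exact Finset.sum_congr rfl fun i hi => if_pos (Finset.mem_range.1 hi)
  rcases Nat.lt_or_ge n 9 with h | h
  · rw [← h2 9 le_rfl, ← Finset.sum_range_add_sum_Ico _ h.le,
      Finset.sum_eq_zero (s := Finset.Ico n 9) (fun i hi => by
      rw [Finset.mem_Ico] at hi
      have : ex v i = 0 := dif_neg (by omega)
      rw [this, hf]
      simp), add_zero]
  · exact h2 n h

theorem xx_eq {n : ℕ} (d : ℕ) (v : Fin n → ℕ) :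
    xx d v = 3 * (d : ℤ) - ∑ i ∈ Finset.range 9, (ex v i : ℤ) := by
  unfold xx
  rw [hd_range v (fun m => (m : ℤ)) rfl]

theorem DD_eq {n : ℕ} (d : ℕ) (v : Fin n → ℕ) :
    DD d v = (d : ℤ) ^ 2 - ∑ i ∈ Finset.range 9, (ex v i : ℤ) ^ 2 := by
  unfold DD
  rw [hd_range v (fun m => (m : ℤ) ^ 2) (by norm_num)]

theorem kk_xx {n : ℕ} (d : ℕ) (v : Fin n → ℕ) : kk d v = xx d v - tl v (fun m => (m : ℤ)) := by
  unfold kk xx
  rw [sum_tl v (fun m => (m : ℤ))]
  ring

theorem ip_DD {n : ℕ} (d : ℕ) (v : Fin n → ℕ) :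
    ip d v d v = DD d v - tl v (fun m => (m : ℤ) ^ 2) := by
  unfold ip DD
  have h1 : ∑ j, (v j : ℤ) * v j = ∑ j, (v j : ℤ) ^ 2 :=
    Finset.sum_congr rfl fun j _ => (sq _).symm
  rw [h1, sum_tl v (fun m => (m : ℤ) ^ 2)]
  ring

theorem tl_congr {n : ℕ} {v u : Fin n → ℕ} {f g : ℕ → ℤ}
    (h : ∀ i : Fin n, 9 ≤ (i : ℕ) → f (v i) = g (u i)) : tl v f = tl u g := by
  unfold tl
  refine Finset.sum_congr rfl fun i _ => ?_
  by_cases h9 : 9 ≤ (i : ℕ)
  · rw [if_pos h9, if_pos h9, h i h9]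
  · rw [if_neg h9, if_neg h9]

theorem tl_le {n : ℕ} {v u : Fin n → ℕ} {f g : ℕ → ℤ}
    (h : ∀ i : Fin n, 9 ≤ (i : ℕ) → f (v i) ≤ g (u i)) : tl v f ≤ tl u g := by
  unfold tl
  refine Finset.sum_le_sum fun i _ => ?_
  by_cases h9 : 9 ≤ (i : ℕ)
  · rw [if_pos h9, if_pos h9]
    exact h i h9
  · rw [if_neg h9, if_neg h9]

theorem tl_add {n : ℕ} (v : Fin n → ℕ) (f g : ℕ → ℤ) :
    tl v (fun m => f m + g m) = tl v f + tl v g := by
  unfold tl
  rw [← Finset.sum_add_distrib]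
  refine Finset.sum_congr rfl fun i _ => ?_
  split_ifs <;> simp

theorem tl_sub {n : ℕ} (v : Fin n → ℕ) (f g : ℕ → ℤ) :
    tl v (fun m => f m - g m) = tl v f - tl v g := by
  unfold tl
  rw [← Finset.sum_sub_distrib]
  refine Finset.sum_congr rfl fun i _ => ?_
  split_ifs <;> simp

theorem tl_smul {n : ℕ} (v : Fin n → ℕ) (c : ℤ) (f : ℕ → ℤ) :
    tl v (fun m => c * f m) = c * tl v f := by
  unfold tl
  rw [Finset.mul_sum]
  refine Finset.sum_congr rfl fun i _ => ?_
  split_ifs <;> simp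

/-- The standard class of a negative curve which is not a `(-1)`-curve: elementary numbers. -/
theorem basic {r e : ℕ} {v : Fin (r + 4) → ℕ} (hr : 6 ≤ r) (hv : Antitone v)
    (hred : Reduced e v) {P : Fin (r + 4) → Fin 2 → ℂ}
    (hP : AlgebraicIndependent ℚ (fun ij : Fin (r + 4) × Fin 2 => P ij.1 ij.2))
    {G : MvPolynomial (Fin 3) ℂ} (hG : Irreducible G) (hGe : G.IsHomogeneous e)
    (hord : ∀ j, Ord (aff (P j)) (v j) G) (hneg : ip e v e v < 0) :
    kk e v < 0 ∧ 1 ≤ xx e v ∧ 2 * (ex v 8 : ℤ) * xx e v ≤ DD e v ∧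
      DD e v ≤ 2 * (ex v 8 : ℤ) * xx e v + xx e v ^ 2 ∧
      DD e v < tl v (fun m => (m : ℤ) ^ 2) ∧
      tl v (fun m => if m = 0 then 0 else if m = 1 then 2 else 6) ≤ DD e v + xx e v ∧
      tl v (fun m => (m : ℤ) - 2 * ((m - 2 : ℕ) : ℤ)) < xx e v := by
  classical
  have hanti := ex_anti hv
  have hwd : ∀ j, v j ≤ e := fun j => van_le hG.ne_zero hGe (hord j).1
  have hkk : kk e v < 0 := by
    by_contra hcon
    push Not at hcon
    rw [kk_cast] at hcon
    have h6 := red_ip hred hwd (by omega)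
    omega
  have hthree : ex v 0 + ex v 1 + ex v 2 ≤ e := by
    have e0 : ex v 0 = v ⟨0, by omega⟩ := dif_pos (by omega)
    have e1 : ex v 1 = v ⟨1, by omega⟩ := dif_pos (by omega)
    have e2 : ex v 2 = v ⟨2, by omega⟩ := dif_pos (by omega)
    rw [e0, e1, e2]
    refine hred _ _ _ ?_ ?_ ?_ <;> simp
  obtain ⟨c1, c2, c3⟩ := key9 (e := e) (q := fun i => (ex v i : ℤ))
    (fun i => by exact_mod_cast hanti (Nat.le_succ i)) (by exact_mod_cast hthree)
  rw [← xx_eq] at c1 c2 c3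
  rw [← DD_eq] at c2 c3
  have hip := ip_DD e v
  have hkx := kk_xx e v
  -- the class with multiplicities at most two after the ninth
  obtain ⟨w2, hw2⟩ : ∃ w2 : Fin (r + 4) → ℕ,
    w2 = fun j : Fin (r + 4) => if (j : ℕ) < 9 then v j else min (v j) 2 := ⟨_, rfl⟩
  have hle : ∀ j, w2 j ≤ v j := by
    intro j
    rw [hw2]
    dsimp only
    split_ifs
    · exact le_rfl
    · exact min_le_left _ _
  have hred2 : Reduced e w2 := by
    intro i j k hij hik hjk
    have := hred i j k hij hik hjk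
    have h1 := hle i
    have h2 := hle j
    have h3 := hle k
    omega
  have hc2 : (Finset.univ.filter fun j => 2 < w2 j).card ≤ 9 := by
    refine card_of_nine fun i hi => ?_
    rw [hw2]
    dsimp only
    rw [if_neg (by omega)]
    exact min_le_right _ _
  have hG2 : G ∈ VS (fun j => aff (P j)) w2 e :=
    (mem_VS _ _ _ _).2 ⟨hGe, fun j => van_mono (hle j) (hord j).1⟩
  have hpos := pos_of_mem hG2 hG.ne_zero
  have hdim := red9 hred2 hc2 notMem_filter hP hpos
  have hchi := two_chi e w2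
  have hx2 : xx e w2 = xx e v := by
    unfold xx
    congr 1
    refine Finset.sum_congr rfl fun i _ => ?_
    by_cases h : (i : ℕ) < 9
    · rw [if_pos h, if_pos h, hw2]
      dsimp only
      rw [if_pos h]
    · rw [if_neg h, if_neg h]
  have hD2 : DD e w2 = DD e v := by
    unfold DD
    congr 1
    refine Finset.sum_congr rfl fun i _ => ?_
    by_cases h : (i : ℕ) < 9
    · rw [if_pos h, if_pos h, hw2]
      dsimp only
      rw [if_pos h]
    · rw [if_neg h, if_neg h]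
  rw [ip_DD, kk_xx, hx2, hD2] at hchi
  have ht : tl v (fun m => if m = 0 then 0 else if m = 1 then 2 else 6) =
      tl w2 (fun m => (m : ℤ) ^ 2) + tl w2 (fun m => (m : ℤ)) := by
    rw [← tl_add]
    refine tl_congr fun i hi => ?_
    rw [hw2]
    dsimp only
    rw [if_neg (by omega : ¬ (i : ℕ) < 9)]
    rcases Nat.lt_or_ge (v i) 2 with h | h
    · rw [min_eq_left h.le]
      interval_cases h0 : v i <;> simp
    · rw [min_eq_right h, if_neg (by omega), if_neg (by omega)]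
      norm_num
  have hcount : tl v (fun m => if m = 0 then 0 else if m = 1 then 2 else 6) ≤
      DD e v + xx e v := by
    have hpos' : (0 : ℤ) < Module.finrank ℂ ↥(VS (fun j => aff (P j)) w2 e) := by
      exact_mod_cast hpos
    rw [ht]
    linarith
  have hx1 : 1 ≤ xx e v := by
    by_contra hcon
    have hx0 : xx e v = 0 := by omega
    rw [hx0] at c3
    have hD0 : DD e v ≤ 0 := by linarith
    have h1 : tl v (fun m => if m = 0 then 0 else if m = 1 then 2 else 6) ≤ 0 := by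
      rw [hx0] at hcount
      linarith
    have h2 : tl v (fun m => (m : ℤ)) ≤ 0 := by
      have h3 : ∀ i : Fin (r + 4), 9 ≤ (i : ℕ) → v i = 0 := by
        intro i hi
        unfold tl at h1
        have h4 : ∀ j ∈ (Finset.univ : Finset (Fin (r + 4))), (0 : ℤ) ≤
            (if 9 ≤ (j : ℕ) then (if v j = 0 then 0 else if v j = 1 then 2 else 6 : ℤ) else 0) := by
          intro j _
          split_ifs <;> norm_num
        have h5 := (Finset.sum_eq_zero_iff_of_nonneg h4).1 (le_antisymm h1 (Finset.sum_nonneg h4)) i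
          (Finset.mem_univ _)
        rw [if_pos hi] at h5
        by_contra h0
        rw [if_neg h0] at h5
        split_ifs at h5 <;> norm_num at h5
      unfold tl
      refine Finset.sum_nonpos fun i _ => ?_
      split_ifs with h9
      · rw [h3 i h9]
        simp
      · exact le_rfl
    rw [hx0] at hkx
    linarith
  refine ⟨hkk, hx1, c2, c3, by linarith, hcount, ?_⟩
  -- the superabundance
  obtain ⟨S, hS⟩ : ∃ S : Finset (Fin (r + 4)), S = Finset.univ.filter fun i : Fin (r + 4) => (i : ℕ) < 9 :=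
    ⟨_, rfl⟩
  have hS1 : ((∑ j ∈ S, v j : ℕ) : ℤ) = ∑ i : Fin (r + 4), if (i : ℕ) < 9 then (v i : ℤ) else 0 := by
    rw [hS, Finset.sum_filter]
    push_cast
    rfl
  have hsum : ∑ j ∈ S, v j < 3 * e := by
    unfold xx at hx1
    rw [← hS1] at hx1
    omega
  have hb := bound S hsum hP hG hGe hord
  have hG1 : G ∈ VS (fun j => aff (P j)) v e := (mem_VS _ _ _ _).2 ⟨hGe, fun j => (hord j).1⟩
  have hpos1 := pos_of_mem hG1 hG.ne_zero
  have h2c := two_chi e v
  have hT : ((∑ j, (if j ∈ S then 0 else v j - 2) : ℕ) : ℤ) = tl v (fun m => ((m - 2 : ℕ) : ℤ)) := by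
    unfold tl
    push_cast
    refine Finset.sum_congr rfl fun i _ => ?_
    by_cases h : (i : ℕ) < 9
    · rw [if_pos (by rw [hS, Finset.mem_filter]; exact ⟨Finset.mem_univ _, h⟩),
        if_neg (by omega)]
    · rw [if_neg (by rw [hS, Finset.mem_filter]; exact fun h' => h h'.2),
        if_pos (by omega)]
  rw [hT] at hb
  have hpos1' : (0 : ℤ) < Module.finrank ℂ ↥(VS (fun j => aff (P j)) v e) := by
    exact_mod_cast hpos1
  rw [tl_sub v (fun m => (m : ℤ)) (fun m => 2 * ((m - 2 : ℕ) : ℤ)),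
    tl_smul v 2 (fun m => ((m - 2 : ℕ) : ℤ))]
  linarith

end Pool.Agent.K6.H96.TM
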