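import Pool.Agent.K6.H96.TM.EveryU
import Pool.Agent.K6.H83.HN.Area3
import Pool.Agent.K6.H83.HN.NoWin3

set_option autoImplicit false

/-!
# Negative curves: any number of arbitrary multiplicities, sharper form
-/

namespace Pool.Agent.K6.H96.TM

open MvPolynomial Pool.Agent.W609 Pool.Agent.W609.CR Pool.Agent.TH167 Pool.Agent.TH167.SH
  Pool.Agent.TH167.TT Pool.Agent.TH167.DD Pool.Agent.TH167.T3 Pool.Agent.H932R3

theorem area_exp {n : ℕ} {v : ℕ → ℕ} (hv : Antitone v) {s m t R D d : ℕ} (hs : 9 ≤ s)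
    (hsn : s + 4 < n) (hm : v s + 1 ≤ m) (ht : s ≤ t ^ 2) (hR : 2 ^ 16 * t * m ≤ R)
    (h1 : v 0 + v 1 + v 2 ≤ D) (h2 : v 0 + 2 ^ 16 * m ≤ D) (h3 : v 1 + v 2 + v 7 + 2 ^ 16 * m ≤ D)
    (hd1 : 1 ≤ d)
    (hroom : D ^ 2 + (∑ i ∈ Finset.Ico 9 s, v i ^ 2) + (11 * v 9 + R) * d ≤ d ^ 2)
    (hd : 2 ^ 34 * s * m ^ 3 ≤ R * d) {P : Fin n → Fin 2 → ℂ}
    (hP : AlgebraicIndependent ℚ (fun ij : Fin n × Fin 2 => P ij.1 ij.2)) :
    ExpDim ℂ (fun i : Fin n => v i) P d := by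
  obtain ⟨F, hF, hF'⟩ := Pool.Agent.K6.H83.HN.W.mainX (n := n) hv
  have key := hF' P (fun h0 => hF (hP.eq_zero_of_aeval_eq_zero F h0))
  have hm1 : 1 ≤ m := (Nat.le_add_left _ _).trans hm
  obtain ⟨K, p, s', D', g1, g2, g3, g4, g5⟩ := Pool.Agent.K6.H83.HN.W.area3 hv hs hm1 hd1 ht hR
    h1 h2 h3 hroom
  refine key K m _ p s' D' (by omega) ((Nat.succ_le_succ (hv g2)).trans hm) g1 rfl d
    (Or.inl ⟨g4, Or.inr ?_⟩)
  have g6 : 2 ^ 32 * ((∑ k ∈ Finset.range K, (p k + 1)) + 1) * m ^ 2 ≤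
      2 ^ 31 * s * m ^ 2 := Nat.mul_le_mul_right _ (by omega)
  have hC : ∑ i ∈ Finset.range n, (v i + 1).choose 2 = ∑ i : Fin n, (v i + 1).choose 2 :=
    (Fin.sum_univ_eq_sum_range (fun i => (v i + 1).choose 2) n).symm
  have := Pool.Agent.K6.H83.HN.W.nowin3 (n := n) hv hs g2 g3 (by omega) hm ht hR h1 hroom hd
  rw [hC] at this
  exact g6.trans this

theorem nine_sq {v : ℕ → ℕ} (hv : Antitone v) {D : ℕ} (h : v 0 + v 1 + v 2 ≤ D) :
    (∑ i ∈ Finset.range 9, v i ^ 2) ≤ D ^ 2 := by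
  have h1 : (v 0 + v 1 + v 2) ^ 2 ≤ D ^ 2 := Nat.pow_le_pow_left h 2
  refine le_trans ?_ h1
  have a01 : v 1 ≤ v 0 := hv (by norm_num)
  have a12 : v 2 ≤ v 1 := hv (by norm_num)
  have b : ∀ i, 2 ≤ i → v i ^ 2 ≤ v 2 * v 2 := fun i hi => by
    rw [sq]
    exact Nat.mul_le_mul (hv hi) (hv hi)
  rw [Finset.sum_range_succ, Finset.sum_range_succ, Finset.sum_range_succ,
    Finset.sum_range_succ, Finset.sum_range_succ, Finset.sum_range_succ,
    Finset.sum_range_succ, Finset.sum_range_succ, Finset.sum_range_one]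
  have b3 := b 3 (by norm_num)
  have b4 := b 4 (by norm_num)
  have b5 := b 5 (by norm_num)
  have b6 := b 6 (by norm_num)
  have b7 := b 7 (by norm_num)
  have b8 := b 8 (by norm_num)
  have c1 : v 2 * v 2 ≤ v 0 * v 1 := Nat.mul_le_mul (a12.trans a01) a12
  have c2 : v 2 * v 2 ≤ v 0 * v 2 := Nat.mul_le_mul (a12.trans a01) le_rfl
  have c3 : v 2 * v 2 ≤ v 1 * v 2 := Nat.mul_le_mul a12 le_rfl
  have e : (v 0 + v 1 + v 2) ^ 2 = v 0 ^ 2 + v 1 ^ 2 + v 2 ^ 2 +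
      2 * (v 0 * v 1 + v 0 * v 2 + v 1 * v 2) := by ring
  rw [e]
  omega

/-- the class is negative: the squares of the last multiplicities are few -/
theorem tail_few3 {n d s m R D : ℕ} {v : Fin n → ℕ} (hv : Antitone v) (hs9 : 9 ≤ s)
    (hs : n ≤ s + 4) (hm : ex v s + 1 ≤ m) (h1 : ex v 0 + ex v 1 + ex v 2 ≤ D)
    (hd : 4 * m ^ 2 ≤ R * d) (hneg : ip d v d v < 0) :
    d ^ 2 < D ^ 2 + (∑ i ∈ Finset.Ico 9 s, ex v i ^ 2) + (11 * ex v 9 + R) * d := by
  have h2 : d ^ 2 < ∑ i ∈ Finset.range n, ex v i ^ 2 := by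
    have e1 : (∑ i ∈ Finset.range n, ex v i ^ 2) = ∑ i : Fin n, v i ^ 2 := by
      rw [← Fin.sum_univ_eq_sum_range (fun i => ex v i ^ 2) n]
      exact Finset.sum_congr rfl fun i _ => by rw [show ex v i = v i from dif_pos i.2]
    rw [e1]
    have h2 : ((d ^ 2 : ℕ) : ℤ) < ((∑ i : Fin n, v i ^ 2 : ℕ) : ℤ) := by
      push_cast
      have h3 : ip d v d v = (d : ℤ) * d - ∑ i, (v i : ℤ) * v i := rfl
      rw [h3] at hneg
      have h4 : (∑ i, (v i : ℤ) ^ 2) = ∑ i, (v i : ℤ) * v i :=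
        Finset.sum_congr rfl fun i _ => sq _
      rw [h4]
      nlinarith
    exact_mod_cast h2
  have h3 : (∑ i ∈ Finset.range n, ex v i ^ 2) ≤ ∑ i ∈ Finset.range (s + 4), ex v i ^ 2 :=
    Finset.sum_le_sum_of_subset (Finset.range_mono hs)
  rw [Finset.sum_range_succ, Finset.sum_range_succ, Finset.sum_range_succ,
    Finset.sum_range_succ, ← Finset.sum_range_add_sum_Ico (fun i => ex v i ^ 2) hs9] at h3
  have ha := TM.ex_anti hv
  have q : ∀ j, ex v (s + j) ^ 2 ≤ m ^ 2 := fun j =>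
    Nat.pow_le_pow_left ((ha (Nat.le_add_right s j)).trans ((Nat.le_succ _).trans hm)) 2
  have q0 := q 0
  have q1 := q 1
  have q2 := q 2
  have q3 := q 3
  rw [add_zero] at q0
  have q9 := nine_sq ha h1
  have e2 : (11 * ex v 9 + R) * d = 11 * ex v 9 * d + R * d := add_mul _ _ _
  rw [e2]
  generalize 11 * ex v 9 * d = A
  generalize R * d = B at hd ⊢
  generalize (∑ i ∈ Finset.Ico 9 s, ex v i ^ 2) = S at h3 ⊢
  generalize (∑ i ∈ Finset.range 9, ex v i ^ 2) = T at h3 q9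
  generalize (∑ i ∈ Finset.range n, ex v i ^ 2) = U at h2 h3
  generalize m ^ 2 = M at q0 q1 q2 q3 hd
  omega

open SHDefs in
/-- Negative curves: the multiplicities after the ninth which are at least `m`. -/
theorem area_neg {r d : ℕ} {w : Fin (r + 10) → ℕ} {P : Fin (r + 10) → Fin 2 → ℂ}
    (hP : AlgebraicIndependent ℚ (fun ij : Fin (r + 10) × Fin 2 => P ij.1 ij.2))
    {C : MvPolynomial (Fin 3) ℂ} (hC : Curve P C d w) (hneg : inter d w d w < 0)
    (hne : ¬ MinusOne P C d w) (hw : Antitone w) {m t N : ℕ} (hm : 1 ≤ m)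
    (hN : N = (Finset.univ.filter fun i : Fin (r + 10) => 9 ≤ (i : ℕ) ∧ m ≤ w i).card)
    (ht : N + 9 ≤ t ^ 2) :
    d < 2 ^ 18 * t * m ^ 2 ∨
      d ^ 2 < (max (w 0 + w 1 + w 2) (max (w 0) (w 1 + w 2 + w 7) + 2 ^ 16 * m)) ^ 2 +
        (∑ i ∈ Finset.univ.filter fun i : Fin (r + 10) => 9 ≤ (i : ℕ) ∧ m ≤ w i, w i ^ 2) +
        (11 * w 9 + 2 ^ 16 * t * m) * d := by
  by_contra hcon
  push Not at hcon
  obtain ⟨hd, hroom⟩ := hcon
  have hchi := chi_le hP hC hneg hne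
  obtain ⟨h1, h2, h3⟩ := SH.curve_iff.1 hC
  rw [SH.inter_eq] at hneg
  have e0 : ex w 0 = w 0 := dif_pos (by omega)
  have e1 : ex w 1 = w 1 := by
    have : ex w 1 = w ⟨1, by omega⟩ := dif_pos (by omega)
    rw [this]
    rfl
  have e2 : ex w 2 = w 2 := by
    have : ex w 2 = w ⟨2, by omega⟩ := dif_pos (by omega)
    rw [this]
    rfl
  have e7 : ex w 7 = w 7 := by
    have : ex w 7 = w ⟨7, by omega⟩ := dif_pos (by omega)
    rw [this]
    rfl
  have e9 : ex w 9 = w 9 := by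
    have : ex w 9 = w ⟨9, by omega⟩ := dif_pos (by omega)
    rw [this]
    rfl
  obtain ⟨D, hD⟩ : ∃ D, D = max (w 0 + w 1 + w 2) (max (w 0) (w 1 + w 2 + w 7) + 2 ^ 16 * m) :=
    ⟨_, rfl⟩
  rw [← hD] at hroom
  have d1 : w 0 + w 1 + w 2 ≤ D := by rw [hD]; exact le_max_left _ _
  have d2 : w 0 + 2 ^ 16 * m ≤ D := by
    rw [hD]
    exact (Nat.add_le_add_right (le_max_left _ _) _).trans (le_max_right _ _)
  have d3 : w 1 + w 2 + w 7 + 2 ^ 16 * m ≤ D := by
    rw [hD]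
    exact (Nat.add_le_add_right (le_max_right _ _) _).trans (le_max_right _ _)
  have ha := TM.ex_anti hw
  have ht1 : 1 ≤ t := by
    by_contra h
    have : t = 0 := by omega
    rw [this] at ht
    omega
  -- the next multiplicity is less than `m`
  have hlt : ex w (N + 9) < m := by
    by_contra hcon
    push Not at hcon
    have hkn : N + 9 < r + 10 := by
      by_contra h
      have h0 : ex w (N + 9) = 0 := dif_neg h
      rw [h0] at hcon
      omega
    have g1 : Finset.Icc (⟨9, by omega⟩ : Fin (r + 10)) ⟨N + 9, hkn⟩ ⊆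
        Finset.univ.filter fun i : Fin (r + 10) => 9 ≤ (i : ℕ) ∧ m ≤ w i := by
      intro i hi
      rw [Finset.mem_Icc, Fin.le_def, Fin.le_def] at hi
      rw [Finset.mem_filter]
      refine ⟨Finset.mem_univ _, hi.1, ?_⟩
      have h4 : ex w (N + 9) = w ⟨N + 9, hkn⟩ := dif_pos hkn
      rw [h4] at hcon
      exact hcon.trans (hw (by rw [Fin.le_def]; exact hi.2))
    have g2 := Finset.card_le_card g1
    rw [Fin.card_Icc, ← hN] at g2
    simp only at g2
    omega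
  -- the sum
  have hsum : (∑ i ∈ Finset.Ico 9 (N + 9), ex w i ^ 2) ≤
      ∑ i ∈ Finset.univ.filter fun i : Fin (r + 10) => 9 ≤ (i : ℕ) ∧ m ≤ w i, w i ^ 2 := by
    have hge : ∀ i, i ∈ Finset.Ico 9 (N + 9) → m ≤ ex w i := by
      intro i hi
      rw [Finset.mem_Ico] at hi
      by_contra hcon
      push Not at hcon
      have g1 : ((Finset.univ.filter fun i : Fin (r + 10) => 9 ≤ (i : ℕ) ∧ m ≤ w i).map
          Fin.valEmbedding) ⊆ Finset.Ico 9 i := by
        intro j hj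
        rw [Finset.mem_map] at hj
        obtain ⟨k, hk, rfl⟩ := hj
        rw [Finset.mem_filter] at hk
        rw [Finset.mem_Ico]
        refine ⟨hk.2.1, ?_⟩
        by_contra h4
        push Not at h4
        have h5 : ex w k = w k := dif_pos k.2
        have h6 := ha h4
        have h7 := hk.2.2
        rw [← h5] at h7
        change ex w k ≤ ex w i at h6
        omega
      have g2 := Finset.card_le_card g1
      rw [Finset.card_map, ← hN, Nat.card_Ico] at g2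
      omega
    have e3 : (∑ i ∈ Finset.univ.filter fun i : Fin (r + 10) => 9 ≤ (i : ℕ) ∧ m ≤ w i, w i ^ 2) =
        ∑ i ∈ (Finset.range (r + 10)).filter (fun i => 9 ≤ i ∧ m ≤ ex w i), ex w i ^ 2 := by
      rw [Finset.sum_filter, Finset.sum_filter,
        ← Fin.sum_univ_eq_sum_range
          (fun i => if 9 ≤ i ∧ m ≤ ex w i then ex w i ^ 2 else 0) (r + 10)]
      exact Finset.sum_congr rfl fun i _ => by rw [show ex w i = w i from dif_pos i.2]
    rw [e3]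
    refine Finset.sum_le_sum_of_subset fun i hi => ?_
    have hi2 := hge i hi
    rw [Finset.mem_Ico] at hi
    rw [Finset.mem_filter, Finset.mem_range]
    refine ⟨?_, hi.1, hi2⟩
    by_contra h
    have h0 : ex w i = 0 := dif_neg h
    rw [h0] at hi2
    omega
  have hroom' : D ^ 2 + (∑ i ∈ Finset.Ico 9 (N + 9), ex w i ^ 2) +
      (11 * ex w 9 + 2 ^ 16 * t * m) * d ≤ d ^ 2 := by
    rw [e9]
    exact le_trans (Nat.add_le_add_right (Nat.add_le_add_left hsum _) _) hroom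
  have hR34 : 2 ^ 34 * (N + 9) * m ^ 3 ≤ 2 ^ 16 * t * m * d := by
    calc 2 ^ 34 * (N + 9) * m ^ 3 ≤ 2 ^ 34 * t ^ 2 * m ^ 3 :=
          Nat.mul_le_mul_right _ (Nat.mul_le_mul_left _ ht)
      _ = 2 ^ 16 * t * m * (2 ^ 18 * t * m ^ 2) := by ring
      _ ≤ _ := Nat.mul_le_mul_left _ hd
  have hd1 : 1 ≤ d := by
    have : 1 ≤ 2 ^ 18 * t * m ^ 2 := Nat.mul_pos (Nat.mul_pos (by norm_num) ht1) (Nat.pow_pos hm)
    exact this.trans hd
  rcases Nat.lt_or_ge (N + 9 + 4) (r + 10) with h4 | h4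
  · have h5 := area_exp (n := r + 10) (v := ex w) ha (s := N + 9) (m := m) (t := t)
      (R := 2 ^ 16 * t * m) (D := D) (d := d) (by omega) h4 hlt ht le_rfl
      (by rw [e0, e1, e2]; exact d1) (by rw [e0]; exact d2) (by rw [e1, e2, e7]; exact d3) hd1
      hroom' hR34 hP
    rw [ex_val] at h5
    exact not_exp h1.ne_zero h2 h3 hchi h5
  · have h6 : 4 * m ^ 2 ≤ 2 ^ 16 * t * m * d := by
      have a1 : m ^ 2 ≤ d := by
        refine le_trans ?_ hd
        exact Nat.le_mul_of_pos_left _ (Nat.mul_pos (by norm_num) ht1)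
      have a2 : 4 ≤ 2 ^ 16 * t * m := by
        have : 1 ≤ t * m := Nat.mul_pos ht1 hm
        have e : 2 ^ 16 * t * m = 2 ^ 16 * (t * m) := mul_assoc _ _ _
        rw [e]
        omega
      exact Nat.mul_le_mul a2 a1
    exact absurd (tail_few3 hw (by omega) h4 hlt (by rw [e0, e1, e2]; exact d1) h6 hneg)
      (not_lt.2 hroom')

end Pool.Agent.K6.H96.TM
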