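import Pool.Agent.K6.H96.TM.Fin

set_option autoImplicit false

/-!
# Any number of arbitrary multiplicities: the standard class of a negative curve
-/

namespace Pool.Agent.K6.H96.TM

open MvPolynomial Pool.Agent.W609 Pool.Agent.W609.CR Pool.Agent.TH167 Pool.Agent.TH167.SH
  Pool.Agent.TH167.TT Pool.Agent.TH167.DD Pool.Agent.TH167.T3 Pool.Agent.H932R3

/-- the expected dimension for `s` arbitrary multiplicities, if the first `s` leave enough room -/
def EveryStm : Prop :=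
  ∀ (n : ℕ) (v : ℕ → ℕ), Antitone v → ∀ s : ℕ, 9 ≤ s → s + 4 < n → ∀ d : ℕ,
    2 ^ 18 * (v s + 1) ^ 2 ≤ d →
    (∑ i ∈ Finset.range s, v i ^ 2) + (14 * v 0 + 2 ^ 15 * s * (v s + 1)) * d ≤ d ^ 2 →
    ∀ P : Fin n → Fin 2 → ℂ,
      AlgebraicIndependent ℚ (fun ij : Fin n × Fin 2 => P ij.1 ij.2) →
        ExpDim ℂ (fun i : Fin n => v i) P d

theorem ex_anti {n : ℕ} {v : Fin n → ℕ} (hv : Antitone v) : Antitone (ex v) := by
  intro a b hab
  unfold ex
  by_cases hb : b < n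
  · rw [dif_pos hb, dif_pos (lt_of_le_of_lt hab hb)]
    exact hv (by rw [Fin.le_def]; exact hab)
  · rw [dif_neg hb]
    exact Nat.zero_le _

theorem ex_val {n : ℕ} {v : Fin n → ℕ} : (fun i : Fin n => ex v i) = v := by
  funext i
  exact dif_pos i.2

/-- the class is negative: the squares of the last multiplicities are few -/
theorem tail_few {n d s : ℕ} {v : Fin n → ℕ} (hv : Antitone v) (hs9 : 9 ≤ s) (hs : n ≤ s + 4)
    (hd : 2 ^ 18 * (ex v s + 1) ^ 2 ≤ d) (hneg : ip d v d v < 0) :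
    d ^ 2 < (∑ i ∈ Finset.range s, ex v i ^ 2) +
      (14 * ex v 0 + 2 ^ 15 * s * (ex v s + 1)) * d := by
  have h1 : d ^ 2 < ∑ i ∈ Finset.range n, ex v i ^ 2 := by
    have e1 : (∑ i ∈ Finset.range n, ex v i ^ 2) = ∑ i : Fin n, v i ^ 2 := by
      rw [← Fin.sum_univ_eq_sum_range (fun i => ex v i ^ 2) n]
      exact Finset.sum_congr rfl fun i _ => by rw [show ex v i = v i from dif_pos i.2]
    rw [e1]
    have h2 : ((d ^ 2 : ℕ) : ℤ) < ((∑ i : Fin n, v i ^ 2 : ℕ) : ℤ) := by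
      push_cast
      have h3 : ip d v d v = (d : ℤ) * d - ∑ i, (v i : ℤ) * v i := rfl
      rw [h3] at hneg
      have h4 : (∑ i, (v i : ℤ) ^ 2) = ∑ i, (v i : ℤ) * v i :=
        Finset.sum_congr rfl fun i _ => sq _
      rw [h4]
      nlinarith
    exact_mod_cast h2
  have h2 : (∑ i ∈ Finset.range n, ex v i ^ 2) ≤ ∑ i ∈ Finset.range (s + 4), ex v i ^ 2 :=
    Finset.sum_le_sum_of_subset (Finset.range_mono hs)
  rw [Finset.sum_range_succ, Finset.sum_range_succ, Finset.sum_range_succ,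
    Finset.sum_range_succ] at h2
  have ha := ex_anti hv
  have q0 : ex v s ^ 2 ≤ (ex v s + 1) ^ 2 := Nat.pow_le_pow_left (Nat.le_succ _) 2
  have q1 : ex v (s + 1) ^ 2 ≤ (ex v s + 1) ^ 2 :=
    Nat.pow_le_pow_left ((ha (by omega : s ≤ s + 1)).trans (Nat.le_succ _)) 2
  have q2 : ex v (s + 2) ^ 2 ≤ (ex v s + 1) ^ 2 :=
    Nat.pow_le_pow_left ((ha (by omega : s ≤ s + 2)).trans (Nat.le_succ _)) 2
  have q3 : ex v (s + 3) ^ 2 ≤ (ex v s + 1) ^ 2 :=
    Nat.pow_le_pow_left ((ha (by omega : s ≤ s + 3)).trans (Nat.le_succ _)) 2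
  have q4 : d ≤ (14 * ex v 0 + 2 ^ 15 * s * (ex v s + 1)) * d := by
    refine Nat.le_mul_of_pos_left _ ?_
    have : 0 < 2 ^ 15 * s * (ex v s + 1) := by positivity
    omega
  generalize (14 * ex v 0 + 2 ^ 15 * s * (ex v s + 1)) * d = A at q4 ⊢
  generalize (∑ i ∈ Finset.range s, ex v i ^ 2) = S at h2 ⊢
  generalize (∑ i ∈ Finset.range n, ex v i ^ 2) = T at h1 h2
  generalize (ex v s + 1) ^ 2 = M at q0 q1 q2 q3 hd
  omega

/-- A negative curve with a standard class: for every `s ≥ 9` the multiplicity number `s` is large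
or the first `s` multiplicities fill almost everything. -/
theorem every (X : EveryStm) {n d : ℕ} {v : Fin n → ℕ} (hv : Antitone v)
    {P : Fin n → Fin 2 → ℂ}
    (hP : AlgebraicIndependent ℚ (fun ij : Fin n × Fin 2 => P ij.1 ij.2))
    {G : MvPolynomial (Fin 3) ℂ} (hG : Irreducible G) (hGe : G.IsHomogeneous d)
    (hord : ∀ j, Ord (aff (P j)) (v j) G) (hneg : ip d v d v < 0) (hchi : chi d v ≤ 0) (s : ℕ)
    (hs : 9 ≤ s) :
    d < 2 ^ 18 * (ex v s + 1) ^ 2 ∨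
      d ^ 2 < (∑ i ∈ Finset.range s, ex v i ^ 2) +
        (14 * ex v 0 + 2 ^ 15 * s * (ex v s + 1)) * d := by
  by_contra hcon
  push Not at hcon
  obtain ⟨h1, h2⟩ := hcon
  rcases Nat.lt_or_ge (s + 4) n with h4 | h4
  · have h5 := X n (ex v) (ex_anti hv) s hs h4 d h1 h2 P hP
    rw [ex_val] at h5
    exact not_exp hG.ne_zero hGe hord hchi h5
  · exact absurd (tail_few hv hs h4 h1 hneg) (not_lt.2 h2)

end Pool.Agent.K6.H96.TM
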