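import Pool.Agent.K6.H96.TM.Fill
import Pool.Agent.K6.H83.HN.MainX
import Pool.Agent.K6.H83.HN.NoWin
import Pool.Agent.K6.H83.HN.Area
import Pool.Agent.K6.H83.HN.Squares

set_option autoImplicit false

/-!
# Any number of arbitrary multiplicities: the expected dimension (helper83) at generic points
-/

namespace Pool.Agent.K6.H96.TM

open MvPolynomial Pool.Agent.W609 Pool.Agent.W609.CR Pool.Agent.TH167 Pool.Agent.TH167.SH
  Pool.Agent.TH167.TT Pool.Agent.TH167.DD Pool.Agent.TH167.T3 Pool.Agent.H932R3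

theorem every_stm : EveryStm := by
  intro n v hv s hs hsn d hd hroom P hP
  obtain ⟨F, hF, hF'⟩ := Pool.Agent.K6.H83.HN.W.mainX (n := n) hv
  have key := hF' P (fun h0 => hF (hP.eq_zero_of_aeval_eq_zero F h0))
  have hm : 1 ≤ v s + 1 := Nat.le_add_left _ _
  have hd1 : 1 ≤ d := by
    have : 1 ≤ (v s + 1) ^ 2 := Nat.one_le_pow _ _ hm
    omega
  obtain ⟨K, p, s', D, g1, g2, g3, g4, g5⟩ := Pool.Agent.K6.H83.HN.W.area hv hs hm hd1 hroom
  refine key K (v s + 1) _ p s' D (by omega) (Nat.succ_le_succ (hv g2)) g1 rfl d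
    (Or.inl ⟨g4, Or.inr ?_⟩)
  have g6 : 2 ^ 32 * ((∑ k ∈ Finset.range K, (p k + 1)) + 1) * (v s + 1) ^ 2 ≤
      2 ^ 31 * s * (v s + 1) ^ 2 := Nat.mul_le_mul_right _ (by omega)
  have hC : ∑ i ∈ Finset.range n, (v i + 1).choose 2 = ∑ i : Fin n, (v i + 1).choose 2 :=
    (Fin.sum_univ_eq_sum_range (fun i => (v i + 1).choose 2) n).symm
  have := Pool.Agent.K6.H83.HN.W.nowin (n := n) hv hs g2 g3 (by omega) le_rfl hroom hd
  rw [hC] at this
  exact g6.trans this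

/-- `K ^ 2` arbitrary multiplicities -/
theorem squares_exp {n : ℕ} {v : ℕ → ℕ} (hv : Antitone v) {K m S J d : ℕ} (hK : 3 ≤ K)
    (hKn : K ^ 2 < n) (hm : m = v (K ^ 2) + 1)
    (hS : S = ∑ k ∈ Finset.Ico 3 K, (v (k ^ 2) + 2 ^ 13 * m)) (hJ : 2 * J = (K - 1) * (K - 2))
    (hd : max (v 0 + v 1 + v 2) (max (v 0) (v 1 + v 2 + v 7) + 2 ^ 16 * m) + S ≤ d)
    (hd' : S + 2 ^ 19 * J * m ^ 2 ≤ d) {P : Fin n → Fin 2 → ℂ}
    (hP : AlgebraicIndependent ℚ (fun ij : Fin n × Fin 2 => P ij.1 ij.2)) :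
    ExpDim ℂ (fun i : Fin n => v i) P d := by
  obtain ⟨F, hF, hF'⟩ := Pool.Agent.K6.H83.HN.W.mainX (n := n) hv
  have key := hF' P (fun h0 => hF (hP.eq_zero_of_aeval_eq_zero F h0))
  obtain ⟨L, rfl⟩ : ∃ L, K = L + 3 := ⟨K - 3, by omega⟩
  obtain ⟨e, he⟩ : ∃ e, e = max (v 0 + v 1 + v 2) (max (v 0) (v 1 + v 2 + v 7) + 2 ^ 16 * m) :=
    ⟨_, rfl⟩
  rw [← he] at hd
  have h1 : v 0 + v 1 + v 2 ≤ e := by rw [he]; exact le_max_left _ _
  have h2 : v 0 + 2 ^ 16 * m ≤ e := by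
    rw [he]
    exact (Nat.add_le_add_right (le_max_left _ _) _).trans (le_max_right _ _)
  have h3 : v 1 + v 2 + v 7 + 2 ^ 16 * m ≤ e := by
    rw [he]
    exact (Nat.add_le_add_right (le_max_right _ _) _).trans (le_max_right _ _)
  have hSh := Pool.Agent.K6.H83.HN.W.squares hv (K := L) h1 h2 h3
  have hS' : ∑ j ∈ Finset.range L, (v ((j + 3) ^ 2) + 2 ^ 13 * m) = S := by
    rw [hS, Finset.sum_Ico_eq_sum_range]
    refine Finset.sum_congr rfl fun j _ => ?_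
    rw [add_comm 3 j]
  have hJ' : J = (∑ k ∈ Finset.range L, ((k + 1) + 1)) + 1 := by
    have h4 := Pool.Agent.K6.H83.HN.W.squares_J L
    have h5 : L + 3 - 1 = L + 2 := rfl
    have h6 : L + 3 - 2 = L + 1 := rfl
    rw [h5, h6] at hJ
    omega
  refine key L m J (fun k => k + 1) (fun k => (k + 3) ^ 2)
    (fun k => e + ∑ j ∈ Finset.range k, (v ((j + 3) ^ 2) + 2 ^ 13 * m)) hKn hm.ge hSh hJ' d ?_
  simp only [Finset.sum_range_zero, add_zero]
  rw [hS']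
  exact Or.inl ⟨hd, Or.inl (by omega)⟩

open SHDefs in
/-- Negative curves and `K ^ 2` arbitrary multiplicities. -/
theorem squares_neg {r d : ℕ} {w : Fin (r + 10) → ℕ} {P : Fin (r + 10) → Fin 2 → ℂ}
    (hP : AlgebraicIndependent ℚ (fun ij : Fin (r + 10) × Fin 2 => P ij.1 ij.2))
    {C : MvPolynomial (Fin 3) ℂ} (hC : Curve P C d w) (hneg : inter d w d w < 0)
    (hne : ¬ MinusOne P C d w) (hw : Antitone w) {K m S J : ℕ} (hK : 3 ≤ K)
    (hKn : K ^ 2 < r + 10) (hm : m = ex w (K ^ 2) + 1)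
    (hS : S = ∑ k ∈ Finset.Ico 3 K, (ex w (k ^ 2) + 2 ^ 13 * m))
    (hJ : 2 * J = (K - 1) * (K - 2)) :
    d < max (w 0 + w 1 + w 2) (max (w 0) (w 1 + w 2 + w 7) + 2 ^ 16 * m) + S ∨
      d < S + 2 ^ 19 * J * m ^ 2 := by
  by_contra hcon
  push Not at hcon
  obtain ⟨g1, g2⟩ := hcon
  have hchi := chi_le hP hC hneg hne
  obtain ⟨h1, h2, h3⟩ := SH.curve_iff.1 hC
  have e0 : ex w 0 = w 0 := dif_pos (by omega)
  have e1 : ex w 1 = w 1 := by
    have : ex w 1 = w ⟨1, by omega⟩ := dif_pos (by omega)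
    rw [this]
    rfl
  have e2 : ex w 2 = w 2 := by
    have : ex w 2 = w ⟨2, by omega⟩ := dif_pos (by omega)
    rw [this]
    rfl
  have e7 : ex w 7 = w 7 := by
    have : ex w 7 = w ⟨7, by omega⟩ := dif_pos (by omega)
    rw [this]
    rfl
  have h4 := squares_exp (n := r + 10) (v := ex w) (TM.ex_anti hw) hK hKn hm hS hJ
    (by rw [e0, e1, e2, e7]; exact g1) g2 hP
  rw [ex_val] at h4
  exact not_exp h1.ne_zero h2 h3 hchi h4

end Pool.Agent.K6.H96.TM
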