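import Pool.Agent.K6.H96.TM.EveryS

set_option autoImplicit false

/-!
# Negative curves: the large multiplicities fill almost everything
-/

namespace Pool.Agent.K6.H96.TM

open MvPolynomial Pool.Agent.W609 Pool.Agent.W609.CR Pool.Agent.TH167 Pool.Agent.TH167.SH
  Pool.Agent.TH167.TT Pool.Agent.TH167.DD Pool.Agent.TH167.T3 Pool.Agent.H932R3

open SHDefs in
/-- `χ ≤ 0` for a negative curve which is not a `(-1)`-curve. -/
theorem chi_le {r : ℕ} {P : Fin (r + 10) → Fin 2 → ℂ}
    (hP : AlgebraicIndependent ℚ (fun ij : Fin (r + 10) × Fin 2 => P ij.1 ij.2))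
    {d : ℕ} {w : Fin (r + 10) → ℕ} {C : MvPolynomial (Fin 3) ℂ}
    (hC : Curve P C d w) (hneg : inter d w d w < 0) (hne : ¬ MinusOne P C d w) :
    chi d w ≤ 0 := by
  obtain ⟨P1, d1, v, C1, σ, a1, a2, a3, a4, a5, a6, a7, a8, a9, a10⟩ := exists_std hP hC hne
  obtain ⟨h1, h2, h3⟩ := SH.curve_iff.1 a2
  have h4 : ip d1 v d1 v < 0 := by
    rw [← SH.inter_eq, a8]
    exact hneg
  obtain ⟨b1, -, -, -⟩ := std_curve a4 a5 a1 h1 h2 h3 h4
  rw [SH.interK_eq, SH.interK_eq] at a9
  have h5 := two_chi d w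
  rw [SH.inter_eq] at hneg
  omega

theorem ex_le {n : ℕ} {v : Fin n → ℕ} {M : ℕ} (hM : ∀ i, v i ≤ M) (k : ℕ) : ex v k ≤ M := by
  unfold ex
  split_ifs
  · exact hM _
  · exact Nat.zero_le _

/-- counting in an ordered sequence -/
theorem lt_of_card_le {n m : ℕ} {v : Fin n → ℕ} (hv : Antitone v) (hm : 1 ≤ m) {k : ℕ}
    (hk : (Finset.univ.filter fun i : Fin n => m ≤ v i).card ≤ k) : ex v k < m := by
  by_contra hcon
  push Not at hcon
  have hkn : k < n := by
    by_contra h
    unfold ex at hcon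
    rw [dif_neg h] at hcon
    omega
  have h1 : (Finset.univ.filter fun i : Fin n => (i : ℕ) ≤ k) ⊆
      Finset.univ.filter fun i : Fin n => m ≤ v i := by
    intro i hi
    rw [Finset.mem_filter] at hi ⊢
    refine ⟨hi.1, ?_⟩
    have h2 : ex v k = v ⟨k, hkn⟩ := dif_pos hkn
    rw [h2] at hcon
    exact hcon.trans (hv (by rw [Fin.le_def]; exact hi.2))
  have h2 := Finset.card_le_card h1
  have h3 : (Finset.univ.filter fun i : Fin n => (i : ℕ) ≤ k).card = k + 1 := by
    have h4 : (Finset.univ.filter fun i : Fin n => (i : ℕ) ≤ k) = Finset.Iic (⟨k, hkn⟩ : Fin n) := by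
      ext i
      simp [Fin.le_def]
    rw [h4, Fin.card_Iic]
  omega

theorem card_le_of_lt {n m : ℕ} {v : Fin n → ℕ} (hv : Antitone v) {k : ℕ} (hk : ex v k < m) :
    (Finset.univ.filter fun i : Fin n => m ≤ v i).card ≤ k := by
  have h1 : (Finset.univ.filter fun i : Fin n => m ≤ v i) ⊆
      Finset.univ.filter fun i : Fin n => (i : ℕ) < k := by
    intro i hi
    rw [Finset.mem_filter] at hi ⊢
    refine ⟨hi.1, ?_⟩
    by_contra hcon
    push Not at hcon
    have h2 : ex v i = v i := dif_pos i.2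
    have h3 := ex_anti hv hcon
    rw [h2] at h3
    omega
  have h2 := Finset.card_le_card h1
  have h3 : (Finset.univ.filter fun i : Fin n => (i : ℕ) < k).card ≤ k := by
    have h4 : ((Finset.univ.filter fun i : Fin n => (i : ℕ) < k).map Fin.valEmbedding) ⊆
        Finset.range k := by
      intro i hi
      rw [Finset.mem_map] at hi
      obtain ⟨j, hj, rfl⟩ := hi
      rw [Finset.mem_filter] at hj
      exact Finset.mem_range.2 hj.2
    have h5 := Finset.card_le_card h4
    rwa [Finset.card_map, Finset.card_range] at h5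
  omega

/-- the first `max N 9` squares -/
theorem sum_first {n m : ℕ} {v : Fin n → ℕ} (hv : Antitone v) {N s : ℕ}
    (hN : N = (Finset.univ.filter fun i : Fin n => m ≤ v i).card) (hs : s = max N 9) :
    (∑ i ∈ Finset.range s, ex v i ^ 2) ≤
      (∑ i ∈ Finset.univ.filter fun i : Fin n => m ≤ v i, v i ^ 2) + 9 * m ^ 2 := by
  classical
  rw [← Finset.sum_filter_add_sum_filter_not (Finset.range s) (fun i => m ≤ ex v i)]
  refine Nat.add_le_add ?_ ?_
  · have h1 : (∑ i ∈ (Finset.range s).filter (fun i => m ≤ ex v i), ex v i ^ 2) ≤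
        ∑ i ∈ (Finset.range n).filter (fun i => m ≤ ex v i), ex v i ^ 2 := by
      by_cases hm : m = 0
      · subst hm
        have e1 : ∀ t, ((Finset.range t).filter fun i => 0 ≤ ex v i) = Finset.range t := fun t =>
          Finset.filter_true_of_mem fun _ _ => Nat.zero_le _
        rw [e1, e1]
        rcases Nat.le_total s n with h | h
        · exact Finset.sum_le_sum_of_subset (Finset.range_mono h)
        · refine le_of_eq (Finset.sum_subset (Finset.range_mono h) fun i _ hi => ?_).symm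
          have : ex v i = 0 := dif_neg (by simpa using hi)
          rw [this]
          rfl
      · refine Finset.sum_le_sum_of_subset fun i hi => ?_
        rw [Finset.mem_filter] at hi ⊢
        refine ⟨?_, hi.2⟩
        rw [Finset.mem_range]
        by_contra h
        have h2 : ex v i = 0 := dif_neg h
        rw [h2] at hi
        omega
    refine h1.trans (le_of_eq ?_)
    rw [Finset.sum_filter, Finset.sum_filter,
      ← Fin.sum_univ_eq_sum_range (fun i => if m ≤ ex v i then ex v i ^ 2 else 0) n]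
    exact Finset.sum_congr rfl fun i _ => by rw [show ex v i = v i from dif_pos i.2]
  · have h1 : ((Finset.range s).filter fun i => ¬ m ≤ ex v i) ⊆ Finset.Ico N s := by
      intro i hi
      rw [Finset.mem_filter, Finset.mem_range] at hi
      rw [Finset.mem_Ico, hN]
      exact ⟨card_le_of_lt hv (not_le.1 hi.2), hi.1⟩
    have h2 := Finset.card_le_card h1
    rw [Nat.card_Ico] at h2
    have h3 : (∑ i ∈ (Finset.range s).filter (fun i => ¬ m ≤ ex v i), ex v i ^ 2) ≤
        ((Finset.range s).filter fun i => ¬ m ≤ ex v i).card * m ^ 2 := by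
      rw [← smul_eq_mul]
      refine Finset.sum_le_card_nsmul _ _ _ fun i hi => ?_
      rw [Finset.mem_filter] at hi
      exact Nat.pow_le_pow_left (not_le.1 hi.2).le 2
    refine h3.trans (Nat.mul_le_mul_right _ (h2.trans ?_))
    omega

/-- the ordered form -/
theorem fill_anti (X : EveryStm) {n d : ℕ} {v : Fin n → ℕ} (hv : Antitone v)
    {P : Fin n → Fin 2 → ℂ}
    (hP : AlgebraicIndependent ℚ (fun ij : Fin n × Fin 2 => P ij.1 ij.2))
    {G : MvPolynomial (Fin 3) ℂ} (hG : Irreducible G) (hGe : G.IsHomogeneous d)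
    (hord : ∀ j, Ord (aff (P j)) (v j) G) (hneg : ip d v d v < 0) (hchi : chi d v ≤ 0)
    {M m : ℕ} (hM : ∀ i, v i ≤ M) (hm : 1 ≤ m) (hd : 2 ^ 18 * m ^ 2 ≤ d) :
    d ^ 2 < (∑ i ∈ Finset.univ.filter fun i : Fin n => m ≤ v i, v i ^ 2) +
      (14 * M + 2 ^ 15 * ((Finset.univ.filter fun i : Fin n => m ≤ v i).card + 10) * m) * d := by
  obtain ⟨N, hN⟩ : ∃ N, N = (Finset.univ.filter fun i : Fin n => m ≤ v i).card := ⟨_, rfl⟩
  obtain ⟨s, hs⟩ : ∃ s, s = max N 9 := ⟨_, rfl⟩
  have h1 : ex v s < m := lt_of_card_le hv hm (by rw [← hN, hs]; exact le_max_left _ _)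
  have h2 : (ex v s + 1) ^ 2 ≤ m ^ 2 := Nat.pow_le_pow_left h1 2
  rcases every X hv hP hG hGe hord hneg hchi s (by rw [hs]; exact le_max_right _ _) with h | h
  · exfalso
    have := Nat.mul_le_mul_left (2 ^ 18) h2
    omega
  · have h3 := sum_first hv hN hs
    have h4 : 14 * ex v 0 + 2 ^ 15 * s * (ex v s + 1) ≤ 14 * M + 2 ^ 15 * (N + 9) * m := by
      refine Nat.add_le_add (Nat.mul_le_mul_left _ (ex_le hM 0)) (Nat.mul_le_mul
        (Nat.mul_le_mul_left _ ?_) h1)
      omega
    have h5 := Nat.mul_le_mul_right d h4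
    have h6 : 9 * m ^ 2 ≤ 2 ^ 15 * m * d := by
      have : 1 ≤ m * 2 ^ 15 := Nat.mul_pos hm (by norm_num)
      calc 9 * m ^ 2 ≤ d := by omega
        _ = 1 * d := (one_mul d).symm
        _ ≤ 2 ^ 15 * m * d := Nat.mul_le_mul_right d (by omega)
    have h7 : (14 * M + 2 ^ 15 * (N + 10) * m) * d =
        (14 * M + 2 ^ 15 * (N + 9) * m) * d + 2 ^ 15 * m * d := by ring
    rw [← hN, h7]
    omega

open SHDefs in
/-- The points where the multiplicity of a negative curve is at least `m` carry almost the whole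
self-intersection. -/
theorem fill (X : EveryStm) {r d : ℕ} {w : Fin (r + 10) → ℕ} {P : Fin (r + 10) → Fin 2 → ℂ}
    (hP : AlgebraicIndependent ℚ (fun ij : Fin (r + 10) × Fin 2 => P ij.1 ij.2))
    {C : MvPolynomial (Fin 3) ℂ} (hC : Curve P C d w) (hneg : inter d w d w < 0)
    (hne : ¬ MinusOne P C d w) {M m : ℕ} (hM : ∀ i, w i ≤ M) (hm : 1 ≤ m)
    (hd : 2 ^ 18 * m ^ 2 ≤ d) :
    d ^ 2 < (∑ i ∈ Finset.univ.filter fun i : Fin (r + 10) => m ≤ w i, w i ^ 2) +
      (14 * M + 2 ^ 15 * ((Finset.univ.filter fun i : Fin (r + 10) => m ≤ w i).card + 10) * m) *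
        d := by
  have hchi := chi_le hP hC hneg hne
  obtain ⟨h1, h2, h3⟩ := SH.curve_iff.1 hC
  rw [SH.inter_eq] at hneg
  obtain ⟨τ, hτ⟩ : ∃ τ : Equiv.Perm (Fin (r + 10)), Antitone (w ∘ τ) := by
    refine ⟨Fin.revPerm.trans (Tuple.sort w), fun a b hab => ?_⟩
    exact Tuple.monotone_sort w (Fin.rev_le_rev.2 hab)
  have hP' : AlgebraicIndependent ℚ (fun ij : Fin (r + 10) × Fin 2 => (P ∘ τ) ij.1 ij.2) := by
    have := hP.comp (fun ij : Fin (r + 10) × Fin 2 => (τ ij.1, ij.2)) (fun a b hab => by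
      rw [Prod.mk.injEq] at hab
      exact Prod.ext (τ.injective hab.1) hab.2)
    exact this
  have e1 : ip d (w ∘ τ) d (w ∘ τ) = ip d w d w := by
    unfold ip
    exact congrArg _ (Equiv.sum_comp τ fun j => (w j : ℤ) * w j)
  have e2 : chi d (w ∘ τ) = chi d w := by
    unfold chi
    exact congrArg _ (Equiv.sum_comp τ fun j => ((w j + 1).choose 2 : ℤ))
  have h4 := fill_anti X hτ hP' h1 h2 (fun j => h3 (τ j)) (by rw [e1]; exact hneg)
    (by rw [e2]; exact hchi) (M := M) (m := m) (fun i => hM (τ i)) hm hd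
  have e3 : (∑ i ∈ Finset.univ.filter fun i : Fin (r + 10) => m ≤ (w ∘ τ) i, (w ∘ τ) i ^ 2) =
      ∑ i ∈ Finset.univ.filter fun i : Fin (r + 10) => m ≤ w i, w i ^ 2 := by
    rw [Finset.sum_filter, Finset.sum_filter]
    exact Equiv.sum_comp τ fun j => if m ≤ w j then w j ^ 2 else 0
  have e4 : (Finset.univ.filter fun i : Fin (r + 10) => m ≤ (w ∘ τ) i).card =
      (Finset.univ.filter fun i : Fin (r + 10) => m ≤ w i).card := by
    rw [Finset.card_filter, Finset.card_filter]
    exact Equiv.sum_comp τ fun j => if m ≤ w j then 1 else 0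
  rw [e3, e4] at h4
  exact h4

end Pool.Agent.K6.H96.TM
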