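import Pool.Agent.K6.H96.TM.Num
import Pool.Agent.K6.H83.HN.MainT
import Pool.Agent.Y939.NC.Std
import Pool.Agent.TH167.SH.Fam
import Pool.Agent.TH167.SH.Conv

set_option autoImplicit false

/-!
# Nine arbitrary multiplicities: negative curves
-/

namespace Pool.Agent.K6.H96.TM

open MvPolynomial Pool.Agent.W609 Pool.Agent.W609.CR Pool.Agent.TH167 Pool.Agent.TH167.SH
  Pool.Agent.TH167.TT Pool.Agent.TH167.DD Pool.Agent.TH167.T3 Pool.Agent.H932R3

theorem exp_of_gen {n : ℕ} {v : Fin n → ℕ} {d : ℕ} (h : Pool.Agent.K6.H83.HN.GenExp v d)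
    {P : Fin n → Fin 2 → ℂ}
    (hP : AlgebraicIndependent ℚ (fun ij : Fin n × Fin 2 => P ij.1 ij.2)) : ExpDim ℂ v P d := by
  rw [Pool.Agent.TH442.NF.expDim_iff, ← sys_eq]
  refine (Pool.Agent.R355.Gen.gen_iff d v (max 0 (chi d v))).1 ?_ P hP
  obtain ⟨F, hF, hF'⟩ := h
  refine ⟨F, hF, fun Q hQ => ?_⟩
  have := hF' Q hQ
  rw [Pool.Agent.TH442.NF.expDim_iff, ← sys_eq] at this
  exact this

theorem ten_stm : TenStm := fun _ _ hv _ h1 h2 h3 _ hP =>
  exp_of_gen (Pool.Agent.K6.H83.HN.mainT hv h1 h2 h3) hP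

theorem star_stm : StarStm := by
  intro r v hv d h1 h2 P hP
  obtain ⟨F, hF, hF'⟩ := Pool.Agent.K6.H83.HN.mainS hv
  exact hF' P (fun h0 => hF (hP.eq_zero_of_aeval_eq_zero F h0)) d (Or.inl ⟨h1, h2⟩)

/-- The point configuration is not a zero of the polynomials `Z r n`. -/
def VG (Z : (r : ℕ) → ℕ → MvPolynomial (Fin (r + 10) × Fin 2) ℂ) {r : ℕ}
    (P : Fin (r + 10) → Fin 2 → ℂ) : Prop :=
  ∀ n, MvPolynomial.eval (fun ij : Fin (r + 10) × Fin 2 => P ij.1 ij.2) (Z r n) ≠ 0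

/-- The number of nonzero multiplicities after the ninth. -/
def tlCard {n : ℕ} (v : Fin n → ℕ) : ℕ :=
  (Finset.univ.filter fun i : Fin n => 9 ≤ (i : ℕ) ∧ v i ≠ 0).card

/-- The class `(d; v)` is near to a multiple of the anticanonical class of the first nine points. -/
def Near {r : ℕ} (d : ℕ) (v : Fin (r + 10) → ℕ) : Prop :=
  1 ≤ xx d v ∧ xx d v < 2 ^ 27 * ((v 9 : ℤ) + 1) ^ 2 ∧ v 0 < v 8 + 2 ^ 28 * (v 9 + 1) ^ 2 ∧
    d < v 1 + v 2 + v 7 + 2 ^ 16 * (v 9 + 1) ∧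
    2 ^ 154 * ((v 9 : ℤ) + 1) ^ 6 * xx d v < (tlCard v : ℤ)

theorem reduced_of {r d : ℕ} {v : Fin (r + 10) → ℕ} (hv : Antitone v)
    (h : v 0 + v 1 + v 2 ≤ d) : Reduced d v := by
  intro i j k hij hik hjk
  have key : ∀ a b c : Fin (r + 10), a < b → b < c → v a + v b + v c ≤ d := by
    intro a b c hab hbc
    have h0 : v a ≤ v 0 := hv (Fin.zero_le a)
    have h1 : v b ≤ v 1 := hv (by
      rw [Fin.le_def]
      rw [Fin.lt_def] at hab
      show 1 ≤ (b : ℕ)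
      omega)
    have h2 : v c ≤ v 2 := hv (by
      rw [Fin.le_def]
      rw [Fin.lt_def] at hab hbc
      show 2 ≤ (c : ℕ)
      omega)
    omega
  have hij' : i < j ∨ j < i := lt_or_gt_of_ne hij
  have hik' : i < k ∨ k < i := lt_or_gt_of_ne hik
  have hjk' : j < k ∨ k < j := lt_or_gt_of_ne hjk
  rcases hij' with a | a <;> rcases hik' with b | b <;> rcases hjk' with c | c
  · exact key i j k a c
  · have := key i k j b c; omega
  · exact absurd (a.trans c) (not_lt.2 b.le)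
  · have := key k i j b a; omega
  · have := key j i k a b; omega
  · exact absurd (c.trans a) (not_lt.2 b.le)
  · have := key j k i c b; omega
  · have := key k j i c a; omega

/-- The numbers of a standard class of a negative curve. -/
theorem std_curve {r d : ℕ} {v : Fin (r + 10) → ℕ} (hv : Antitone v) (h012 : v 0 + v 1 + v 2 ≤ d)
    {P : Fin (r + 10) → Fin 2 → ℂ}
    (hP : AlgebraicIndependent ℚ (fun ij : Fin (r + 10) × Fin 2 => P ij.1 ij.2))
    {G : MvPolynomial (Fin 3) ℂ} (hG : Irreducible G) (hGe : G.IsHomogeneous d)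
    (hord : ∀ j, Ord (aff (P j)) (v j) G) (hneg : ip d v d v < 0) :
    kk d v < 0 ∧
    (1 ≤ xx d v ∧ 2 * (v 8 : ℤ) * xx d v ≤ DD d v ∧
      DD d v ≤ 2 * (v 8 : ℤ) * xx d v + xx d v ^ 2 ∧
      DD d v < tl v (fun m => (m : ℤ) ^ 2) ∧
      tl v (fun m => if m = 0 then 0 else if m = 1 then 2 else 6) ≤ DD d v + xx d v ∧
      tl v (fun m => (m : ℤ) - 2 * ((m - 2 : ℕ) : ℤ)) < xx d v) ∧
    (d < 2 ^ 156 * (v 9 + 1) ^ 8 ∨ Near d v) ∧
    (max (v 0) (v 1 + v 2 + v 7) + 2 ^ 16 * (v 9 + 1) ≤ d →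
      tl v (fun m => (m : ℤ)) - ip d v d v - kk d v < 2 ^ 32 * ((v 9 : ℤ) + 1) ^ 2 + 2) := by
  obtain ⟨b1, b2, b3, b4, b5, b6, b7⟩ := basic (r := r + 6) (by omega) hv (reduced_of hv h012) hP
    hG hGe hord hneg
  have hchi : chi d v ≤ 0 := by
    have := two_chi d v
    omega
  have e8 : ex v 8 = v 8 := by
    have : ex v 8 = v ⟨8, by omega⟩ := dif_pos (by omega)
    rw [this]
    rfl
  have e8' : ex (n := r + 6 + 4) v 8 = v 8 := e8
  rw [e8'] at b3 b4
  refine ⟨b1, ⟨b2, b3, b4, b5, b6, b7⟩, ?_, fun hge => window star_stm hv h012 hP hG hGe hord hchi hge⟩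
  rcases Nat.lt_or_ge d (2 ^ 156 * (v 9 + 1) ^ 8) with hlt | hlt
  · exact Or.inl hlt
  · right
    obtain ⟨c1, c2, c3, c4⟩ := alt ten_stm hv h012 hP hG hGe hord hchi b2 b3 b5 hlt
    exact ⟨b2, c2, c3, c1, c4⟩

open SHDefs in
/-- The standard form of a negative curve which is not a `(-1)`-curve. -/
theorem exists_std {r : ℕ} {P : Fin (r + 10) → Fin 2 → ℂ}
    (hP : AlgebraicIndependent ℚ (fun ij : Fin (r + 10) × Fin 2 => P ij.1 ij.2))
    {d : ℕ} {w : Fin (r + 10) → ℕ} {C : MvPolynomial (Fin 3) ℂ}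
    (hC : Curve P C d w) (hne : ¬ MinusOne P C d w) :
    ∃ (P1 : Fin (r + 10) → Fin 2 → ℂ) (d1 : ℕ) (v : Fin (r + 10) → ℕ)
      (C1 : MvPolynomial (Fin 3) ℂ) (σ : Equiv.Perm (Fin (r + 10))),
      AlgebraicIndependent ℚ (fun ij : Fin (r + 10) × Fin 2 => P1 ij.1 ij.2) ∧
      Curve P1 C1 d1 v ∧
      Relation.ReflTransGen Quadratic (d, w) (d1, fun i => v (σ i)) ∧ Antitone v ∧
      v 0 + v 1 + v 2 ≤ d1 ∧ d1 ≤ d ∧ (∀ i, v (σ i) ≤ w i) ∧
      inter d1 v d1 v = inter d w d w ∧ interK d1 v = interK d w ∧ ¬ MinusOne P1 C1 d1 v := by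
  obtain ⟨h1, h2, h3⟩ := SH.curve_iff.1 hC
  have hne' : ¬ (SH.ip d w d w = -1 ∧ SH.kk d w = 1) := fun h0 =>
    hne ⟨hC, by rw [SH.inter_eq, h0.1], by rw [SH.interK_eq, h0.2]⟩
  obtain ⟨M, hM⟩ : ∃ M, ∀ j, w j ≤ M := ⟨∑ j, w j, fun j =>
    Finset.single_le_sum (fun _ _ => Nat.zero_le _) (Finset.mem_univ j)⟩
  have hw : SH.Few M d w := by
    left
    rw [Finset.filter_false_of_mem fun j _ => not_lt.2 (hM j)]
    simp
  obtain ⟨P1, d1, w1, C1, a1, a2, a3, a4, a5, a6, a7, a8⟩ :=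
    Pool.Agent.Y939.NC.std_irr (r := r + 6) d P hP w hw C h1 h2 h3 hne'
  obtain ⟨c1, c2, c3⟩ := SH.quad_inv a5
  simp only at c1 c2 c3
  obtain ⟨σ, hσ⟩ := exists_sort w1
  obtain ⟨v, hv⟩ : ∃ v : Fin (r + 10) → ℕ, v = fun j => w1 (σ j) := ⟨_, rfl⟩
  have hvσ : (fun i => v (σ.symm i)) = w1 := by
    funext i
    rw [hv]
    dsimp only
    rw [σ.apply_symm_apply]
  have hip : ip d1 v d1 v = ip d1 w1 d1 w1 := by rw [hv]; exact ip_perm d1 w1 σ
  have hkk : kk d1 v = kk d1 w1 := by rw [hv]; exact kk_perm d1 w1 σ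
  have hP1 : AlgebraicIndependent ℚ (fun ij : Fin (r + 10) × Fin 2 => P1 (σ ij.1) ij.2) := by
    have h4 := a1.comp (fun ij : Fin (r + 10) × Fin 2 => ((σ ij.1 : Fin (r + 10)), ij.2)) (by
      rintro ⟨a, b⟩ ⟨a', b'⟩ h
      have e1 := congrArg Prod.fst h
      have e2 := congrArg Prod.snd h
      exact Prod.ext (σ.injective e1) e2)
    exact h4
  have hcur : Curve (fun i => P1 (σ i)) C1 d1 v := by
    rw [SH.curve_iff]
    refine ⟨a2, a3, fun j => ?_⟩
    rw [hv]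
    exact a4 (σ j)
  refine ⟨fun i => P1 (σ i), d1, v, C1, σ.symm, hP1, hcur, ?_, by rw [hv]; exact hσ, ?_, a7,
    fun i => ?_, ?_, ?_, fun hm => hne' ?_⟩
  · rw [hvσ]
    exact SH.chain_conv a5
  · rw [hv]
    have n0 : ((0 : Fin (r + 10)) : ℕ) = 0 := rfl
    have n1 : ((1 : Fin (r + 10)) : ℕ) = 1 := rfl
    have n2 : ((2 : Fin (r + 10)) : ℕ) = 2 := rfl
    refine a6 (σ 0) (σ 1) (σ 2) (fun h => ?_) (fun h => ?_) (fun h => ?_)
    · have h9 := congrArg (fun x : Fin (r + 10) => (x : ℕ)) (σ.injective h)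
      simp only [n0, n1] at h9
      omega
    · have h9 := congrArg (fun x : Fin (r + 10) => (x : ℕ)) (σ.injective h)
      simp only [n0, n2] at h9
      omega
    · have h9 := congrArg (fun x : Fin (r + 10) => (x : ℕ)) (σ.injective h)
      simp only [n1, n2] at h9
      omega
  · have := congrFun hvσ i
    rw [this]
    exact a8 i
  · rw [SH.inter_eq, SH.inter_eq, hip, c3]
  · rw [SH.interK_eq, SH.interK_eq, hkk, c2]
  · obtain ⟨-, m2, m3⟩ := hm
    rw [SH.inter_eq, hip, c3] at m2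
    rw [SH.interK_eq, hkk, c2] at m3
    exact ⟨m2, by omega⟩

/-- multisets with bounded cardinality and entries -/
theorem multi_finite (n B : ℕ) : {M : Multiset ℕ | Multiset.card M ≤ n ∧ ∀ a ∈ M, a ≤ B}.Finite := by
  classical
  refine Set.Finite.subset (Set.finite_Iic (n • Multiset.range (B + 1))) fun M hM => ?_
  rw [Set.mem_Iic, Multiset.le_iff_count]
  intro a
  rw [Multiset.count_nsmul]
  by_cases ha : a ∈ M
  · have h1 : Multiset.count a (Multiset.range (B + 1)) = 1 := by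
      rw [Multiset.count_eq_one_of_mem (Multiset.nodup_range _)]
      rw [Multiset.mem_range]
      have := hM.2 a ha
      omega
    rw [h1, mul_one]
    exact (Multiset.count_le_card a M).trans hM.1
  · rw [Multiset.count_eq_zero_of_notMem ha]
    exact Nat.zero_le _

/-- the number of nonzero multiplicities -/
theorem card_bound {r d : ℕ} {v : Fin (r + 10) → ℕ}
    (h : tl v (fun m => if m = 0 then 0 else if m = 1 then 2 else 6) ≤ DD d v + xx d v) :
    (Finset.univ.filter fun i => v i ≠ 0).card ≤ 9 + (d ^ 2 + 3 * d) := by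
  classical
  have h1 : (Finset.univ.filter fun i => v i ≠ 0).card ≤
      (Finset.univ.filter fun i : Fin (r + 10) => (i : ℕ) < 9).card + tlCard v := by
    unfold tlCard
    refine le_trans (Finset.card_le_card ?_) (Finset.card_union_le _ _)
    intro i hi
    rw [Finset.mem_filter] at hi
    rw [Finset.mem_union, Finset.mem_filter, Finset.mem_filter]
    rcases Nat.lt_or_ge (i : ℕ) 9 with h9 | h9
    · exact Or.inl ⟨Finset.mem_univ _, h9⟩
    · exact Or.inr ⟨Finset.mem_univ _, h9, hi.2⟩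
  have h2 : (Finset.univ.filter fun i : Fin (r + 10) => (i : ℕ) < 9).card = 9 := by
    rw [Fin.card_filter_val_lt]
    omega
  have h3 : (tlCard v : ℤ) ≤ tl v (fun m => if m = 0 then 0 else if m = 1 then 2 else 6) := by
    unfold tlCard tl
    rw [Finset.card_filter]
    push_cast
    refine Finset.sum_le_sum fun i _ => ?_
    by_cases h9 : 9 ≤ (i : ℕ)
    · rw [if_pos h9]
      by_cases h0 : v i = 0
      · rw [if_neg (fun h => h.2 h0), if_pos h0]
      · rw [if_pos ⟨h9, h0⟩, if_neg h0]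
        split_ifs <;> norm_num
    · rw [if_neg h9, if_neg (fun h => h9 h.1)]
  have h4 : DD d v ≤ (d : ℤ) ^ 2 := by
    unfold DD
    have : (0 : ℤ) ≤ ∑ i : Fin (r + 10), if (i : ℕ) < 9 then (v i : ℤ) ^ 2 else 0 :=
      Finset.sum_nonneg fun i _ => by split_ifs <;> positivity
    linarith
  have h5 : xx d v ≤ 3 * (d : ℤ) := by
    unfold xx
    have : (0 : ℤ) ≤ ∑ i : Fin (r + 10), if (i : ℕ) < 9 then (v i : ℤ) else 0 :=
      Finset.sum_nonneg fun i _ => by split_ifs <;> positivity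
    linarith
  have h6 : (tlCard v : ℤ) ≤ ((d ^ 2 + 3 * d : ℕ) : ℤ) := by
    push_cast
    linarith
  have h7 : tlCard v ≤ d ^ 2 + 3 * d := by exact_mod_cast h6
  rw [h2] at h1
  omega

end Pool.Agent.K6.H96.TM
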