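import Pool.Agent.K6.H96.TM.NumU
import Pool.Agent.K6.H96.TM.Fin
import Pool.Agent.K6.H83.HN.MainU

set_option autoImplicit false

/-!
# Nine arbitrary multiplicities: negative curves, sharper bounds
-/

namespace Pool.Agent.K6.H96.TM

open MvPolynomial Pool.Agent.W609 Pool.Agent.W609.CR Pool.Agent.TH167 Pool.Agent.TH167.SH
  Pool.Agent.TH167.TT Pool.Agent.TH167.DD Pool.Agent.TH167.T3 Pool.Agent.H932R3

theorem u_stm : UStm := by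
  intro r v hv d h012 h P hP
  obtain ⟨F, hF, hF'⟩ := Pool.Agent.K6.H83.HN.U.mainU hv
  exact hF' P (fun h0 => hF (hP.eq_zero_of_aeval_eq_zero F h0)) d h012 h

/-- The class `(d; v)` is near to a multiple of the anticanonical class of the first nine points. -/
def NearU {r : ℕ} (d : ℕ) (v : Fin (r + 10) → ℕ) : Prop :=
  1 ≤ xx d v ∧ xx d v < 2 ^ 27 * ((v 9 : ℤ) + 1) ^ 2 ∧ v 0 < v 8 + 2 ^ 28 * (v 9 + 1) ^ 2 ∧
    d < v 1 + v 2 + v 7 + 2 ^ 16 * (v 9 + 1) ∧ 2 * (v 8 : ℤ) * xx d v < (v 9 : ℤ) ^ 2 * tlCard v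

/-- The numbers of a standard class of a negative curve. -/
theorem std_curveU {r d : ℕ} {v : Fin (r + 10) → ℕ} (hv : Antitone v)
    (h012 : v 0 + v 1 + v 2 ≤ d) {P : Fin (r + 10) → Fin 2 → ℂ}
    (hP : AlgebraicIndependent ℚ (fun ij : Fin (r + 10) × Fin 2 => P ij.1 ij.2))
    {G : MvPolynomial (Fin 3) ℂ} (hG : Irreducible G) (hGe : G.IsHomogeneous d)
    (hord : ∀ j, Ord (aff (P j)) (v j) G) (hneg : ip d v d v < 0) :
    kk d v < 0 ∧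
    (1 ≤ xx d v ∧ 2 * (v 8 : ℤ) * xx d v ≤ DD d v ∧
      DD d v ≤ 2 * (v 8 : ℤ) * xx d v + xx d v ^ 2 ∧
      DD d v < tl v (fun m => (m : ℤ) ^ 2) ∧
      tl v (fun m => if m = 0 then 0 else if m = 1 then 2 else 6) ≤ DD d v + xx d v ∧
      tl v (fun m => (m : ℤ) - 2 * ((m - 2 : ℕ) : ℤ)) < xx d v) ∧
    (d < 2 ^ 19 * (v 9 + 1) ^ 2 ∨ d < 2 ^ 40 * (v 9 + 1) ∨
      (d < v 0 + 2 ^ 16 * (v 9 + 1) ∧ d < 2 ^ 61 * (v 9 + 1) ^ 3) ∨ NearU d v) ∧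
    (max (v 0) (v 1 + v 2 + v 7) + 2 ^ 16 * (v 9 + 1) ≤ d →
      tl v (fun m => (m : ℤ)) - ip d v d v - kk d v < 2 ^ 32 * ((v 9 : ℤ) + 1) ^ 2 + 2) := by
  obtain ⟨b1, b2, -, b4⟩ := std_curve hv h012 hP hG hGe hord hneg
  refine ⟨b1, b2, ?_, b4⟩
  have hchi : chi d v ≤ 0 := by
    have := two_chi d v
    omega
  rcases altU u_stm hv h012 hP hG hGe hord hchi with h | h | h | ⟨h1, h2, h3⟩
  · exact Or.inl h
  · exact Or.inr (Or.inl h)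
  · exact Or.inr (Or.inr (Or.inl h))
  · exact Or.inr (Or.inr (Or.inr ⟨b2.1, h2, h3, h1,
      lt_of_lt_of_le (lt_of_le_of_lt b2.2.1 b2.2.2.2.1) (card_tl hv)⟩))

end Pool.Agent.K6.H96.TM
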