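import Pool.Agent.K6.H96.TM.Core

set_option autoImplicit false

/-!
# Nine arbitrary multiplicities: the alternatives for the standard class of a negative curve
-/

namespace Pool.Agent.K6.H96.TM

open MvPolynomial Pool.Agent.W609 Pool.Agent.W609.CR Pool.Agent.TH167 Pool.Agent.TH167.SH
  Pool.Agent.TH167.TT Pool.Agent.TH167.DD Pool.Agent.TH167.T3 Pool.Agent.H932R3

/-- the expected dimension for nine arbitrary multiplicities in large degree -/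
def TenStm : Prop :=
  ∀ (r : ℕ) (v : Fin (r + 10) → ℕ), Antitone v → ∀ d : ℕ, v 0 + v 1 + v 2 ≤ d →
    (v 1 + v 2 + v 7 + 2 ^ 16 * (v 9 + 1) ≤ d ∨
      (∑ i : Fin (r + 10), if (i : ℕ) < 9 then v i else 0) + 2 ^ 27 * (v 9 + 1) ^ 2 ≤ 3 * d) →
    2 ^ 156 * (v 9 + 1) ^ 8 ≤ d →
    ∀ P : Fin (r + 10) → Fin 2 → ℂ,
      AlgebraicIndependent ℚ (fun ij : Fin (r + 10) × Fin 2 => P ij.1 ij.2) → ExpDim ℂ v P d

/-- the expected dimension for nine arbitrary multiplicities outside of the window -/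
def StarStm : Prop :=
  ∀ (r : ℕ) (v : Fin (r + 10) → ℕ), Antitone v → ∀ d : ℕ,
    max (v 0 + v 1 + v 2) (max (v 0) (v 1 + v 2 + v 7) + 2 ^ 16 * (v 9 + 1)) ≤ d →
    2 ^ 32 * (v 9 + 1) ^ 2 ≤ (∑ i : Fin (r + 1), v ⟨i + 9, by omega⟩) +
      2 * (((d + 2).choose 2 - ∑ i, (v i + 1).choose 2) +
        ((∑ i, (v i + 1).choose 2) - (d + 2).choose 2)) →
    ∀ P : Fin (r + 10) → Fin 2 → ℂ,
      AlgebraicIndependent ℚ (fun ij : Fin (r + 10) × Fin 2 => P ij.1 ij.2) → ExpDim ℂ v P d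

/-- a class which is the class of a curve and has `χ ≤ 0` does not have the expected dimension -/
theorem not_exp {n e : ℕ} {v : Fin n → ℕ} {P : Fin n → Fin 2 → ℂ}
    {G : MvPolynomial (Fin 3) ℂ} (hG : G ≠ 0) (hGe : G.IsHomogeneous e)
    (hord : ∀ j, Ord (aff (P j)) (v j) G) (hchi : chi e v ≤ 0) : ¬ ExpDim ℂ v P e := by
  intro h6
  rw [Pool.Agent.TH442.NF.expDim_iff] at h6
  have hG1 : G ∈ VS (fun j => aff (P j)) v e := (mem_VS _ _ _ _).2 ⟨hGe, fun j => (hord j).1⟩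
  have hpos1 := pos_of_mem hG1 hG
  rw [max_eq_left hchi] at h6
  omega

theorem num_eight {q0 q1 q2 q3 q4 q5 q6 q7 q8 e m x S : ℤ} (h01 : q1 ≤ q0) (h12 : q2 ≤ q1)
    (h23 : q3 ≤ q2) (h34 : q4 ≤ q3) (h45 : q5 ≤ q4) (h56 : q6 ≤ q5) (h67 : q7 ≤ q6)
    (_h78 : q8 ≤ q7) (hm : 1 ≤ m) (h1 : q0 + q1 + q2 ≤ e) (h2 : e < q1 + q2 + q7 + 2 ^ 16 * m)
    (hS : S = q0 + q1 + q2 + q3 + q4 + q5 + q6 + q7 + q8) (hx : x = 3 * e - S)
    (h3 : x < 2 ^ 27 * m ^ 2) : q0 < q8 + 2 ^ 28 * m ^ 2 ∧ e < 3 * q0 + 2 ^ 16 * m := by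
  have hmm : m ≤ m ^ 2 := by nlinarith
  constructor <;> linarith

theorem num_big {q0 q8 e m x D : ℤ} (hm : 1 ≤ m) (h1 : q0 < q8 + 2 ^ 28 * m ^ 2)
    (h2 : e < 3 * q0 + 2 ^ 16 * m) (h3 : 2 ^ 156 * m ^ 8 ≤ e) (hx : 1 ≤ x)
    (hD : 2 * q8 * x ≤ D) : 2 ^ 154 * m ^ 8 * x ≤ D := by
  have hmm : m ≤ m ^ 2 := by nlinarith
  have h0 : (1 : ℤ) ≤ m ^ 2 := by nlinarith
  have hm8 : m ^ 2 ≤ m ^ 8 := pow_le_pow_right₀ hm (by norm_num)
  have h4 : 2 ^ 153 * m ^ 8 ≤ q8 := by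
    norm_num at h1 h2 h3 ⊢
    linarith
  have h5 : 2 ^ 153 * m ^ 8 * x ≤ q8 * x := mul_le_mul_of_nonneg_right h4 (by linarith)
  calc 2 ^ 154 * m ^ 8 * x = 2 * (2 ^ 153 * m ^ 8 * x) := by ring
    _ ≤ 2 * (q8 * x) := by linarith
    _ = 2 * q8 * x := by ring
    _ ≤ D := hD

/-- The standard class of a negative curve which is not a `(-1)`-curve. -/
theorem alt (ten : TenStm) {r e : ℕ} {v : Fin (r + 10) → ℕ} (hv : Antitone v)
    (h012 : v 0 + v 1 + v 2 ≤ e) {P : Fin (r + 10) → Fin 2 → ℂ}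
    (hP : AlgebraicIndependent ℚ (fun ij : Fin (r + 10) × Fin 2 => P ij.1 ij.2))
    {G : MvPolynomial (Fin 3) ℂ} (hG : Irreducible G) (hGe : G.IsHomogeneous e)
    (hord : ∀ j, Ord (aff (P j)) (v j) G) (hchi : chi e v ≤ 0)
    (hx : 1 ≤ xx e v) (hD : 2 * (v 8 : ℤ) * xx e v ≤ DD e v)
    (hneg : DD e v < tl v (fun m => (m : ℤ) ^ 2)) (hlt : 2 ^ 156 * (v 9 + 1) ^ 8 ≤ e) :
    e < v 1 + v 2 + v 7 + 2 ^ 16 * (v 9 + 1) ∧ xx e v < 2 ^ 27 * ((v 9 : ℤ) + 1) ^ 2 ∧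
      v 0 < v 8 + 2 ^ 28 * (v 9 + 1) ^ 2 ∧
      2 ^ 154 * ((v 9 : ℤ) + 1) ^ 6 * xx e v <
        ((Finset.univ.filter fun i : Fin (r + 10) => 9 ≤ (i : ℕ) ∧ v i ≠ 0).card : ℤ) := by
  have hno := not_exp hG.ne_zero hGe hord hchi
  have h1 : ¬ (v 1 + v 2 + v 7 + 2 ^ 16 * (v 9 + 1) ≤ e ∨
      (∑ i : Fin (r + 10), if (i : ℕ) < 9 then v i else 0) + 2 ^ 27 * (v 9 + 1) ^ 2 ≤ 3 * e) :=
    fun h => hno (ten r v hv e h012 h hlt P hP)
  push Not at h1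
  obtain ⟨h1, h2⟩ := h1
  have hS : ((∑ i : Fin (r + 10), if (i : ℕ) < 9 then v i else 0 : ℕ) : ℤ) =
      v 0 + v 1 + v 2 + v 3 + v 4 + v 5 + v 6 + v 7 + v 8 := by
    have h3 := hd_range v (fun m => (m : ℤ)) rfl
    push_cast
    rw [h3, Finset.sum_range_succ, Finset.sum_range_succ, Finset.sum_range_succ,
      Finset.sum_range_succ, Finset.sum_range_succ, Finset.sum_range_succ, Finset.sum_range_succ,
      Finset.sum_range_succ, Finset.sum_range_one]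
    have hval : ∀ (k : ℕ) (hk : k < r + 10), ex v k = v ⟨k, hk⟩ := fun k hk => dif_pos hk
    rw [hval 0 (by omega), hval 1 (by omega), hval 2 (by omega), hval 3 (by omega),
      hval 4 (by omega), hval 5 (by omega), hval 6 (by omega), hval 7 (by omega),
      hval 8 (by omega)]
    rfl
  have hxS : xx e v = 3 * (e : ℤ) - ((∑ i : Fin (r + 10), if (i : ℕ) < 9 then v i else 0 : ℕ) : ℤ) := by
    unfold xx
    push_cast
    rfl
  have hx27 : xx e v < 2 ^ 27 * ((v 9 : ℤ) + 1) ^ 2 := by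
    rw [hxS]
    have : ((3 * e : ℕ) : ℤ) < (((∑ i : Fin (r + 10), if (i : ℕ) < 9 then v i else 0) +
      2 ^ 27 * (v 9 + 1) ^ 2 : ℕ) : ℤ) := by exact_mod_cast h2
    push_cast at this ⊢
    linarith
  have g : ∀ (a b : ℕ) (ha : a < r + 10) (hb : b < r + 10), a ≤ b →
      (v ⟨b, hb⟩ : ℤ) ≤ v ⟨a, ha⟩ := fun a b ha hb hab => by
    have : v ⟨b, hb⟩ ≤ v ⟨a, ha⟩ := hv (by rw [Fin.le_def]; exact hab)
    exact_mod_cast this
  have g01 : (v 1 : ℤ) ≤ v 0 := g 0 1 (by omega) (by omega) (by omega)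
  have g12 : (v 2 : ℤ) ≤ v 1 := g 1 2 (by omega) (by omega) (by omega)
  have g23 : (v 3 : ℤ) ≤ v 2 := g 2 3 (by omega) (by omega) (by omega)
  have g34 : (v 4 : ℤ) ≤ v 3 := g 3 4 (by omega) (by omega) (by omega)
  have g45 : (v 5 : ℤ) ≤ v 4 := g 4 5 (by omega) (by omega) (by omega)
  have g56 : (v 6 : ℤ) ≤ v 5 := g 5 6 (by omega) (by omega) (by omega)
  have g67 : (v 7 : ℤ) ≤ v 6 := g 6 7 (by omega) (by omega) (by omega)
  have g78 : (v 8 : ℤ) ≤ v 7 := g 7 8 (by omega) (by omega) (by omega)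
  obtain ⟨k1, k2⟩ := num_eight (m := (v 9 : ℤ) + 1) (x := xx e v) g01 g12 g23 g34 g45 g56 g67 g78
    (by have := Int.natCast_nonneg (v 9); linarith) (by exact_mod_cast h012)
    (by exact_mod_cast h1) hS hxS hx27
  have hm1 : (1 : ℤ) ≤ (v 9 : ℤ) + 1 := by have := Int.natCast_nonneg (v 9); linarith
  have k3 := num_big hm1 k1 k2 (by exact_mod_cast hlt) hx hD
  refine ⟨h1, hx27, by exact_mod_cast k1, ?_⟩
  -- the number of points
  have hcard : tl v (fun m => (m : ℤ) ^ 2) ≤ ((v 9 : ℤ) + 1) ^ 2 *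
      ((Finset.univ.filter fun i : Fin (r + 10) => 9 ≤ (i : ℕ) ∧ v i ≠ 0).card : ℤ) := by
    rw [Finset.card_filter]
    push_cast
    rw [Finset.mul_sum]
    unfold tl
    refine Finset.sum_le_sum fun i _ => ?_
    by_cases h9 : 9 ≤ (i : ℕ)
    · rw [if_pos h9]
      by_cases h0 : v i = 0
      · rw [h0, if_neg (by simp)]
        simp
      · rw [if_pos ⟨h9, h0⟩, mul_one]
        have h3 : (v i : ℤ) ≤ v 9 := g 9 i.1 (by omega) i.2 h9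
        have h4 : (0 : ℤ) ≤ v i := Int.natCast_nonneg _
        nlinarith
    · rw [if_neg h9, if_neg (fun h => h9 h.1), mul_zero]
  obtain ⟨N, hN⟩ : ∃ N : ℤ, N =
    ((Finset.univ.filter fun i : Fin (r + 10) => 9 ≤ (i : ℕ) ∧ v i ≠ 0).card : ℤ) := ⟨_, rfl⟩
  rw [← hN] at hcard ⊢
  have h5 : ((v 9 : ℤ) + 1) ^ 2 * (2 ^ 154 * ((v 9 : ℤ) + 1) ^ 6 * xx e v) <
      ((v 9 : ℤ) + 1) ^ 2 * N := by
    calc ((v 9 : ℤ) + 1) ^ 2 * (2 ^ 154 * ((v 9 : ℤ) + 1) ^ 6 * xx e v)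
        = 2 ^ 154 * ((v 9 : ℤ) + 1) ^ 8 * xx e v := by ring
      _ ≤ DD e v := k3
      _ < tl v (fun m => (m : ℤ) ^ 2) := hneg
      _ ≤ _ := hcard
  exact lt_of_mul_lt_mul_left h5 (by positivity)

/-- Outside of the narrow cone the number of the small multiplicities is bounded. -/
theorem window (star : StarStm) {r e : ℕ} {v : Fin (r + 10) → ℕ} (hv : Antitone v)
    (h012 : v 0 + v 1 + v 2 ≤ e) {P : Fin (r + 10) → Fin 2 → ℂ}
    (hP : AlgebraicIndependent ℚ (fun ij : Fin (r + 10) × Fin 2 => P ij.1 ij.2))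
    {G : MvPolynomial (Fin 3) ℂ} (hG : Irreducible G) (hGe : G.IsHomogeneous e)
    (hord : ∀ j, Ord (aff (P j)) (v j) G) (hchi : chi e v ≤ 0)
    (hge : max (v 0) (v 1 + v 2 + v 7) + 2 ^ 16 * (v 9 + 1) ≤ e) :
    tl v (fun m => (m : ℤ)) - ip e v e v - kk e v < 2 ^ 32 * ((v 9 : ℤ) + 1) ^ 2 + 2 := by
  have hno := not_exp hG.ne_zero hGe hord hchi
  have h1 : ¬ (2 ^ 32 * (v 9 + 1) ^ 2 ≤ (∑ i : Fin (r + 1), v ⟨i + 9, by omega⟩) +
      2 * (((e + 2).choose 2 - ∑ i, (v i + 1).choose 2) +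
        ((∑ i, (v i + 1).choose 2) - (e + 2).choose 2))) :=
    fun h => hno (star r v hv e (max_le h012 hge) h P hP)
  rw [not_le] at h1
  have h2 : tl v (fun m => (m : ℤ)) = ((∑ i : Fin (r + 1), v ⟨i + 9, by omega⟩ : ℕ) : ℤ) := by
    unfold tl
    have h3 : ∀ f : ℕ → ℤ, ∑ i : Fin (r + 10), f i = ∑ i ∈ Finset.range (r + 10), f i :=
      fun f => Fin.sum_univ_eq_sum_range f (r + 10)
    have h4 := h3 (fun k => if 9 ≤ k then (ex v k : ℤ) else 0)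
    have h5 : ∑ i : Fin (r + 10), (if 9 ≤ (i : ℕ) then (v i : ℤ) else 0) =
        ∑ i : Fin (r + 10), (fun k : ℕ => if 9 ≤ k then (ex v k : ℤ) else 0) i := by
      refine Finset.sum_congr rfl fun i _ => ?_
      have : ex v i.1 = v i := dif_pos i.2
      show _ = if 9 ≤ (i : ℕ) then (ex v i : ℤ) else 0
      rw [this]
    rw [h5, h4, ← Finset.sum_range_add_sum_Ico _ (show 9 ≤ r + 10 by omega),
      Finset.sum_eq_zero (s := Finset.range 9) (fun i hi => by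
        rw [Finset.mem_range] at hi
        rw [if_neg (by omega)]), zero_add, Finset.sum_Ico_eq_sum_range]
    push_cast
    rw [← Fin.sum_univ_eq_sum_range (fun k => if 9 ≤ 9 + k then
      (ex v (9 + k) : ℤ) else 0) (r + 1)]
    refine Finset.sum_congr rfl fun i _ => ?_
    rw [if_pos (by omega)]
    have h6 : ex v (9 + i.1) = v ⟨9 + i.1, by omega⟩ := dif_pos (by omega)
    rw [h6]
    congr 2
    exact Fin.ext (Nat.add_comm _ _)
  rw [h2]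
  have h3 := two_chi e v
  rw [chi_cast] at h3 hchi
  have h4 : ((2 ^ 32 * (v 9 + 1) ^ 2 : ℕ) : ℤ) = 2 ^ 32 * ((v 9 : ℤ) + 1) ^ 2 := by
    push_cast; rfl
  rw [← h4]
  generalize 2 ^ 32 * (v 9 + 1) ^ 2 = Q at h1 ⊢
  generalize (∑ i : Fin (r + 1), v ⟨i + 9, by omega⟩) = L at h1 ⊢
  omega

end Pool.Agent.K6.H96.TM
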