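import Pool.Agent.K6.H96.TM.Num

set_option autoImplicit false

/-!
# Nine arbitrary multiplicities: the sharper alternatives for the standard class of a negative curve
-/

namespace Pool.Agent.K6.H96.TM

open MvPolynomial Pool.Agent.W609 Pool.Agent.W609.CR Pool.Agent.TH167 Pool.Agent.TH167.SH
  Pool.Agent.TH167.TT Pool.Agent.TH167.DD Pool.Agent.TH167.T3 Pool.Agent.H932R3

/-- the expected dimension for nine arbitrary multiplicities: the three ranges -/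
def UStm : Prop :=
  ∀ (r : ℕ) (v : Fin (r + 10) → ℕ), Antitone v → ∀ d : ℕ, v 0 + v 1 + v 2 ≤ d →
    ((v 0 + 2 ^ 16 * (v 9 + 1) ≤ d ∧ v 1 + v 2 + v 7 + 2 ^ 16 * (v 9 + 1) ≤ d ∧
        2 ^ 19 * (v 9 + 1) ^ 2 ≤ d) ∨
      (v 0 + 2 ^ 16 * (v 9 + 1) ≤ d ∧ 2 ^ 40 * (v 9 + 1) ≤ d ∧
        (∑ i : Fin (r + 10), if (i : ℕ) < 9 then v i else 0) + 2 ^ 27 * (v 9 + 1) ^ 2 ≤ 3 * d) ∨
      (d < v 0 + 2 ^ 16 * (v 9 + 1) ∧ 2 ^ 61 * (v 9 + 1) ^ 3 ≤ d)) →
    ∀ P : Fin (r + 10) → Fin 2 → ℂ,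
      AlgebraicIndependent ℚ (fun ij : Fin (r + 10) × Fin 2 => P ij.1 ij.2) → ExpDim ℂ v P d

/-- the number of points -/
theorem card_tl {r : ℕ} {v : Fin (r + 10) → ℕ} (hv : Antitone v) :
    tl v (fun m => (m : ℤ) ^ 2) ≤ (v 9 : ℤ) ^ 2 *
      ((Finset.univ.filter fun i : Fin (r + 10) => 9 ≤ (i : ℕ) ∧ v i ≠ 0).card : ℤ) := by
  rw [Finset.card_filter]
  push_cast
  rw [Finset.mul_sum]
  unfold tl
  refine Finset.sum_le_sum fun i _ => ?_
  by_cases h9 : 9 ≤ (i : ℕ)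
  · rw [if_pos h9]
    by_cases h0 : v i = 0
    · rw [h0, if_neg (by simp)]
      simp
    · rw [if_pos ⟨h9, h0⟩, mul_one]
      have h3 : v i ≤ v 9 := hv (by
        rw [Fin.le_def]
        exact h9)
      have h3' : (v i : ℤ) ≤ v 9 := by exact_mod_cast h3
      have h4 : (0 : ℤ) ≤ v i := Int.natCast_nonneg _
      exact pow_le_pow_left₀ h4 h3' 2
  · rw [if_neg h9, if_neg (fun h => h9 h.1), mul_zero]

/-- The standard class of a negative curve which is not a `(-1)`-curve. -/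
theorem altU (U : UStm) {r e : ℕ} {v : Fin (r + 10) → ℕ} (hv : Antitone v)
    (h012 : v 0 + v 1 + v 2 ≤ e) {P : Fin (r + 10) → Fin 2 → ℂ}
    (hP : AlgebraicIndependent ℚ (fun ij : Fin (r + 10) × Fin 2 => P ij.1 ij.2))
    {G : MvPolynomial (Fin 3) ℂ} (hG : Irreducible G) (hGe : G.IsHomogeneous e)
    (hord : ∀ j, Ord (aff (P j)) (v j) G) (hchi : chi e v ≤ 0) :
    e < 2 ^ 19 * (v 9 + 1) ^ 2 ∨ e < 2 ^ 40 * (v 9 + 1) ∨
      (e < v 0 + 2 ^ 16 * (v 9 + 1) ∧ e < 2 ^ 61 * (v 9 + 1) ^ 3) ∨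
      (e < v 1 + v 2 + v 7 + 2 ^ 16 * (v 9 + 1) ∧ xx e v < 2 ^ 27 * ((v 9 : ℤ) + 1) ^ 2 ∧
        v 0 < v 8 + 2 ^ 28 * (v 9 + 1) ^ 2) := by
  have hno := not_exp hG.ne_zero hGe hord hchi
  have h1 := fun h => hno (U r v hv e h012 h P hP)
  by_cases hA : e < 2 ^ 19 * (v 9 + 1) ^ 2
  · exact Or.inl hA
  by_cases hB : e < 2 ^ 40 * (v 9 + 1)
  · exact Or.inr (Or.inl hB)
  by_cases hC : e < v 0 + 2 ^ 16 * (v 9 + 1)
  · refine Or.inr (Or.inr (Or.inl ⟨hC, ?_⟩))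
    by_contra hcon
    exact h1 (Or.inr (Or.inr ⟨hC, not_lt.1 hcon⟩))
  · refine Or.inr (Or.inr (Or.inr ?_))
    have h2 : e < v 1 + v 2 + v 7 + 2 ^ 16 * (v 9 + 1) := by
      by_contra hcon
      exact h1 (Or.inl ⟨not_lt.1 hC, not_lt.1 hcon, not_lt.1 hA⟩)
    have h3 : 3 * e < (∑ i : Fin (r + 10), if (i : ℕ) < 9 then v i else 0) +
        2 ^ 27 * (v 9 + 1) ^ 2 := by
      by_contra hcon
      exact h1 (Or.inr (Or.inl ⟨not_lt.1 hC, not_lt.1 hB, not_lt.1 hcon⟩))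
    have hS : ((∑ i : Fin (r + 10), if (i : ℕ) < 9 then v i else 0 : ℕ) : ℤ) =
        v 0 + v 1 + v 2 + v 3 + v 4 + v 5 + v 6 + v 7 + v 8 := by
      have h3 := hd_range v (fun m => (m : ℤ)) rfl
      push_cast
      rw [h3, Finset.sum_range_succ, Finset.sum_range_succ, Finset.sum_range_succ,
        Finset.sum_range_succ, Finset.sum_range_succ, Finset.sum_range_succ,
        Finset.sum_range_succ, Finset.sum_range_succ, Finset.sum_range_one]
      have hval : ∀ (k : ℕ) (hk : k < r + 10), ex v k = v ⟨k, hk⟩ := fun k hk => dif_pos hk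
      rw [hval 0 (by omega), hval 1 (by omega), hval 2 (by omega), hval 3 (by omega),
        hval 4 (by omega), hval 5 (by omega), hval 6 (by omega), hval 7 (by omega),
        hval 8 (by omega)]
      rfl
    have hxS : xx e v = 3 * (e : ℤ) -
        ((∑ i : Fin (r + 10), if (i : ℕ) < 9 then v i else 0 : ℕ) : ℤ) := by
      unfold xx
      push_cast
      rfl
    have hx27 : xx e v < 2 ^ 27 * ((v 9 : ℤ) + 1) ^ 2 := by
      rw [hxS]
      have : ((3 * e : ℕ) : ℤ) < (((∑ i : Fin (r + 10), if (i : ℕ) < 9 then v i else 0) +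
        2 ^ 27 * (v 9 + 1) ^ 2 : ℕ) : ℤ) := by exact_mod_cast h3
      push_cast at this ⊢
      linarith
    have g : ∀ (a b : ℕ) (ha : a < r + 10) (hb : b < r + 10), a ≤ b →
        (v ⟨b, hb⟩ : ℤ) ≤ v ⟨a, ha⟩ := fun a b ha hb hab => by
      have : v ⟨b, hb⟩ ≤ v ⟨a, ha⟩ := hv (by rw [Fin.le_def]; exact hab)
      exact_mod_cast this
    have g01 : (v 1 : ℤ) ≤ v 0 := g 0 1 (by omega) (by omega) (by omega)
    have g12 : (v 2 : ℤ) ≤ v 1 := g 1 2 (by omega) (by omega) (by omega)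
    have g23 : (v 3 : ℤ) ≤ v 2 := g 2 3 (by omega) (by omega) (by omega)
    have g34 : (v 4 : ℤ) ≤ v 3 := g 3 4 (by omega) (by omega) (by omega)
    have g45 : (v 5 : ℤ) ≤ v 4 := g 4 5 (by omega) (by omega) (by omega)
    have g56 : (v 6 : ℤ) ≤ v 5 := g 5 6 (by omega) (by omega) (by omega)
    have g67 : (v 7 : ℤ) ≤ v 6 := g 6 7 (by omega) (by omega) (by omega)
    have g78 : (v 8 : ℤ) ≤ v 7 := g 7 8 (by omega) (by omega) (by omega)
    obtain ⟨k1, k2⟩ := num_eight (m := (v 9 : ℤ) + 1) (x := xx e v) g01 g12 g23 g34 g45 g56 g67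
      g78 (by have := Int.natCast_nonneg (v 9); linarith) (by exact_mod_cast h012)
      (by exact_mod_cast h2) hS hxS hx27
    exact ⟨h2, hx27, by exact_mod_cast k1⟩

end Pool.Agent.K6.H96.TM
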